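import Pool.Agent.H73.AM.C1

/-! Modules C2 and C3. -/

set_option autoImplicit false

open scoped Classical

namespace AMx

open Module

section ca

variable {G : Type} [Group G] [Fintype G]

/-- sum of the delta functions at the conjugates of `x` -/
noncomputable def ca (x : G) : G → ℂ := fun z => ∑ g : G, if g * x * g⁻¹ = z then 1 else 0

lemma ca_cf (x : G) : CF (ca x) := by
  intro g z
  unfold ca
  rw [← Equiv.sum_comp (Equiv.mulLeft g)]
  refine Finset.sum_congr rfl fun h _ => ?_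
  have e : (Equiv.mulLeft g) h * x * ((Equiv.mulLeft g) h)⁻¹ = g * z * g⁻¹ ↔ h * x * h⁻¹ = z := by
    simp only [Equiv.coe_mulLeft, mul_inv_rev]
    rw [show g * h * x * (h⁻¹ * g⁻¹) = g * (h * x * h⁻¹) * g⁻¹ by group]
    exact ⟨fun h => mul_left_cancel (mul_right_cancel h), fun h => by rw [h]⟩
  simp only [e]

lemma sum_ca (x : G) (f : G → ℂ) : ∑ z, ca x z * f z = ∑ g, f (g * x * g⁻¹) := by
  simp only [ca, Finset.sum_mul]
  rw [Finset.sum_comm]
  refine Finset.sum_congr rfl fun g _ => ?_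
  simp only [ite_mul, one_mul, zero_mul, Finset.sum_ite_eq, Finset.mem_univ, if_true]

lemma sum_ca_cf (x : G) {f : G → ℂ} (hf : CF f) : ∑ z, ca x z * f z = Nat.card G * f x := by
  rw [sum_ca]
  simp only [hf _ x]
  rw [Finset.sum_const, Finset.card_univ, Nat.card_eq_fintype_card, nsmul_eq_mul]

lemma sum_conv (a b f : G → ℂ) :
    ∑ x, conv a b x * f x = ∑ y, ∑ z, a y * b z * f (y * z) := by
  simp only [conv, Finset.sum_mul]
  rw [Finset.sum_comm]
  refine Finset.sum_congr rfl fun y _ => ?_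
  rw [← Equiv.sum_comp (Equiv.mulLeft y)]
  refine Finset.sum_congr rfl fun z _ => ?_
  simp only [Equiv.coe_mulLeft, inv_mul_cancel_left]

lemma card_ne : (Nat.card G : ℂ) ≠ 0 := by exact_mod_cast Nat.card_pos.ne'

lemma IsIrr.one_ne {χ : G → ℂ} (h : IsIrr χ) : χ 1 ≠ 0 := by
  obtain ⟨r, hr, h1⟩ := h.pos
  rw [h1]
  exact_mod_cast hr.ne'

/-- the functional equation of irreducible characters -/
theorem IsIrr.key {χ : G → ℂ} (h : IsIrr χ) (x y : G) :
    χ x * χ y * Nat.card G = χ 1 * ∑ g, χ (x * (g * y * g⁻¹)) := by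
  have h1 := h.mul (ca x) (ca y) (ca_cf x) (ca_cf y)
  rw [sum_ca_cf x h.cf, sum_ca_cf y h.cf, sum_conv] at h1
  have h2 : ∑ u, ∑ w, ca x u * ca y w * χ (u * w) =
      Nat.card G * ∑ g, χ (x * (g * y * g⁻¹)) := by
    have h3 : ∀ u, ∑ w, ca x u * ca y w * χ (u * w) =
        ca x u * ∑ g, χ (u * (g * y * g⁻¹)) := by
      intro u
      rw [← sum_ca y (fun w => χ (u * w)), Finset.mul_sum]
      refine Finset.sum_congr rfl fun w _ => ?_
      ring
    simp only [h3]
    rw [sum_ca_cf x (f := fun u => ∑ g, χ (u * (g * y * g⁻¹)))]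
    intro g u
    simp only
    rw [← Equiv.sum_comp (Equiv.mulLeft g)]
    refine Finset.sum_congr rfl fun k _ => ?_
    simp only [Equiv.coe_mulLeft]
    rw [show g * u * g⁻¹ * (g * k * y * (g * k)⁻¹) = g * (u * (k * y * k⁻¹)) * g⁻¹ by group, h.cf]
  rw [h2] at h1
  have hne := card_ne (G := G)
  apply mul_left_cancel₀ hne
  linear_combination -h1

/-- averaging against a class function -/
lemma sum_mul_cf {χ : G → ℂ} (hcf : CF χ) (h1 : χ 1 ≠ 0)
    (h : ∀ x y, χ x * χ y * Nat.card G = χ 1 * ∑ g, χ (x * (g * y * g⁻¹)))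
    {b : G → ℂ} (hb : CF b) (u : G) :
    ∑ w, b w * χ (u * w) = χ u * ((∑ w, b w * χ w) / χ 1) := by
  have hne := card_ne (G := G)
  have h2 : ∀ g, ∑ w, b w * χ (u * w) = ∑ w, b w * χ (u * (g * w * g⁻¹)) := by
    intro g
    rw [← Equiv.sum_comp (MulAut.conj g).toEquiv (fun w => b w * χ (u * w))]
    refine Finset.sum_congr rfl fun w _ => ?_
    have : (MulAut.conj g).toEquiv w = g * w * g⁻¹ := rfl
    rw [this, hb]
  have h3 : (Nat.card G : ℂ) * ∑ w, b w * χ (u * w) =
      ∑ w, b w * ∑ g, χ (u * (g * w * g⁻¹)) := by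
    calc (Nat.card G : ℂ) * ∑ w, b w * χ (u * w) = ∑ g : G, ∑ w, b w * χ (u * w) := by
          rw [Finset.sum_const, Finset.card_univ, Nat.card_eq_fintype_card, nsmul_eq_mul]
      _ = ∑ g : G, ∑ w, b w * χ (u * (g * w * g⁻¹)) := Finset.sum_congr rfl fun g _ => h2 g
      _ = _ := by
          rw [Finset.sum_comm]
          refine Finset.sum_congr rfl fun w _ => ?_
          rw [Finset.mul_sum]
  have h4 : χ 1 * ((Nat.card G : ℂ) * ∑ w, b w * χ (u * w)) =
      ∑ w, b w * (χ u * χ w * Nat.card G) := by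
    rw [h3, Finset.mul_sum]
    refine Finset.sum_congr rfl fun w _ => ?_
    rw [h u w]
    ring
  apply mul_left_cancel₀ (mul_ne_zero h1 hne)
  rw [mul_assoc, h4]
  have h5 : χ 1 * (Nat.card G : ℂ) * (χ u * ((∑ w, b w * χ w) / χ 1)) =
      ∑ w, b w * (χ u * χ w * Nat.card G) := by
    rw [show χ 1 * (Nat.card G : ℂ) * (χ u * ((∑ w, b w * χ w) / χ 1)) =
      (Nat.card G : ℂ) * χ u * (∑ w, b w * χ w) by field_simp, Finset.mul_sum]
    refine Finset.sum_congr rfl fun w _ => ?_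
    ring
  rw [h5]

/-- the functional equation implies `IsIrr` -/
theorem IsIrr.of_key {χ : G → ℂ} (hpos : ∃ r : ℝ, 0 < r ∧ χ 1 = r) (hcf : CF χ)
    (hnorm : ∑ x, χ x * χ x⁻¹ = Nat.card G)
    (h : ∀ x y, χ x * χ y * Nat.card G = χ 1 * ∑ g, χ (x * (g * y * g⁻¹))) : IsIrr χ := by
  have h1 : χ 1 ≠ 0 := by
    obtain ⟨r, hr, h1⟩ := hpos
    rw [h1]
    exact_mod_cast hr.ne'
  refine ⟨hpos, hcf, ?_, hnorm⟩
  intro a b ha hb
  rw [sum_conv]
  have h2 : ∀ y, ∑ z, a y * b z * χ (y * z) = a y * χ y * ((∑ w, b w * χ w) / χ 1) := by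
    intro y
    rw [mul_assoc (a y), ← sum_mul_cf hcf h1 h hb, Finset.mul_sum]
    refine Finset.sum_congr rfl fun z _ => ?_
    ring
  simp only [h2]
  rw [← Finset.sum_mul]
  field_simp

end ca

/-- left translation on functions -/
noncomputable def lreg (G : Type) [Group G] : Representation ℂ G (G → ℂ) where
  toFun g :=
    { toFun := fun f x => f (g⁻¹ * x)
      map_add' := fun f f' => rfl
      map_smul' := fun c f => rfl }
  map_one' := by
    refine LinearMap.ext fun f => ?_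
    funext x
    simp
  map_mul' g h := by
    refine LinearMap.ext fun f => ?_
    funext x
    simp [mul_assoc]

lemma lreg_apply {G : Type} [Group G] (g : G) (f : G → ℂ) (x : G) : lreg G g f x = f (g⁻¹ * x) :=
  rfl

/-- transport of scalars along an injective intertwiner -/
lemma op_of_inj {K V : Type} [Group K] [Fintype K] [AddCommGroup V] [Module ℂ V]
    {ρ : Representation ℂ K V} {n : ℕ} {σ : Representation ℂ K (Fin n → ℂ)}
    {F : (Fin n → ℂ) →ₗ[ℂ] V} (hinj : Function.Injective F) (hF : ∀ g v, F (σ g v) = ρ g (F v))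
    (a : K → ℂ) (c : ℂ) (h : ∀ v, op ρ a (F v) = c • F v) : op σ a = c • 1 := by
  refine LinearMap.ext fun v => hinj ?_
  have h1 : F (op σ a v) = op ρ a (F v) := by
    rw [op_apply, op_apply, map_sum]
    refine Finset.sum_congr rfl fun x _ => ?_
    rw [map_smul, hF]
  rw [h1, h v]
  simp

theorem C2 : T_C2 := by
  intro G _ _ χ hχ
  have h1 := hχ.one_ne
  have hne := card_ne (G := G)
  let w : (G → ℂ) → ℂ := fun a => (∑ x, a x * χ x) / χ 1
  let W : Submodule ℂ (G → ℂ) :=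
    { carrier := {f | ∀ a, CF a → op (lreg G) a f = w a • f}
      add_mem' := fun {f f'} hf hf' a ha => by rw [map_add, hf a ha, hf' a ha, smul_add]
      zero_mem' := fun a ha => by rw [map_zero, smul_zero]
      smul_mem' := fun c f hf a ha => by rw [map_smul, hf a ha, smul_comm] }
  have hWmem : ∀ f, f ∈ W ↔ ∀ a, CF a → op (lreg G) a f = w a • f := fun f => Iff.rfl
  have hW : W ≠ ⊥ := by
    intro hbot
    have hmem : (fun x => χ x⁻¹) ∈ W := by
      rw [hWmem]
      intro a ha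
      funext x
      rw [op_apply, Finset.sum_apply]
      simp only [Pi.smul_apply, lreg_apply, smul_eq_mul, mul_inv_rev, inv_inv]
      rw [sum_mul_cf hχ.cf h1 hχ.key ha]
      ring
    rw [hbot, Submodule.mem_bot] at hmem
    have := congrFun hmem 1
    simp only [inv_one, Pi.zero_apply] at this
    exact h1 this
  have hinv : ∀ g, ∀ f ∈ W, lreg G g f ∈ W := by
    intro g f hf a ha
    have h2 := congrArg (fun h : (G → ℂ) →ₗ[ℂ] (G → ℂ) => h f) (op_comm (lreg G) ha g)
    simp only [Module.End.mul_apply] at h2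
    rw [h2, hf a ha, map_smul]
  obtain ⟨n, σ, F, hσ, hFinj, hFW, hF⟩ := exists_irr (lreg G) W hW hinv
  have hn := AMc.irr_pos σ hσ
  have hfr : (finrank ℂ (Fin n → ℂ) : ℂ) = n := by simp
  have hsc : ∀ a, CF a → ∑ x, a x * σ.character x = w a * n := by
    intro a ha
    have h2 := op_of_inj hFinj hF a (w a) (fun v => hFW v a ha)
    rw [← op_trace, scalar_eq h2, hfr]
  have hcf : CF σ.character := fun g x => Representation.char_conj σ x g
  obtain ⟨s, hs, hs1⟩ := hχ.pos
  have hval : ∀ y, σ.character y = (n / s : ℝ) * χ y := by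
    intro y
    have h2 := hsc (ca y) (ca_cf y)
    rw [sum_ca_cf y hcf] at h2
    simp only [w] at h2
    rw [sum_ca_cf y hχ.cf] at h2
    apply mul_left_cancel₀ hne
    rw [h2, hs1]
    push_cast
    ring
  have hnorm := norm_irr σ hσ
  have h3 : ((n / s : ℝ) : ℂ) ^ 2 * Nat.card G = Nat.card G := by
    rw [← hχ.norm, Finset.mul_sum]
    calc ∑ x, ((n / s : ℝ) : ℂ) ^ 2 * (χ x * χ x⁻¹) = ∑ x, σ.character x * σ.character x⁻¹ := by
          refine Finset.sum_congr rfl fun x _ => ?_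
          rw [hval, hval]
          ring
      _ = _ := by rw [hnorm, hχ.norm]
  have h4 : ((n / s : ℝ) : ℂ) ^ 2 = 1 := by
    apply mul_right_cancel₀ hne
    rw [h3, one_mul]
  have h5 : (n / s : ℝ) ^ 2 = 1 := by exact_mod_cast h4
  have h6 : 0 ≤ (n / s : ℝ) := by positivity
  have h7 : (n / s : ℝ) = 1 := by nlinarith [h5, h6]
  refine ⟨n, σ, hσ, ?_⟩
  funext y
  rw [hval, h7]
  simp

theorem C3 : T_C3 := by
  rintro G K _ _ _ _ j χ ⟨m, ρ, hρ, rfl⟩
  have hm := AMc.irr_pos ρ hρ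
  have hfr : ∀ n : ℕ, (finrank ℂ (Fin n → ℂ) : ℂ) = n := fun n => by simp
  let ρj : Representation ℂ K (Fin m → ℂ) := ρ.comp j
  have hnt : Nontrivial (Fin m → ℂ) := by
    have : Nonempty (Fin m) := ⟨⟨0, hm⟩⟩
    infer_instance
  obtain ⟨n, σ, F, hσ, hFinj, -, hF⟩ := exists_irr ρj ⊤ top_ne_bot fun _ _ _ => Submodule.mem_top
  have hn := AMc.irr_pos σ hσ
  refine ⟨σ.character, ⟨n, σ, hσ, rfl⟩, ?_⟩
  intro a ha
  have h1 : op ρj a = op ρ (fun g : G => ∑ k, if j k = g then a k else 0) := by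
    unfold op
    simp only [Finset.sum_smul]
    rw [Finset.sum_comm]
    refine Finset.sum_congr rfl fun k _ => ?_
    simp only [ite_smul, zero_smul, Finset.sum_ite_eq, Finset.mem_univ, if_true]
    rfl
  obtain ⟨c, hc⟩ := op_scalar ρ hρ _ (op_comm ρ ha)
  rw [← h1] at hc
  have h2 : ∑ k, a k * ρ.character (j k) = c * m := by
    rw [← hfr m, ← scalar_eq hc, op_trace]
    rfl
  have h3 : op σ a = c • 1 := op_of_inj hFinj hF a c fun v => by rw [hc]; simp
  have h4 : ∑ k, a k * σ.character k = c * n := by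
    rw [← hfr n, ← scalar_eq h3, op_trace]
  have hm0 : (m : ℂ) ≠ 0 := by exact_mod_cast hm.ne'
  have hn0 : (n : ℂ) ≠ 0 := by exact_mod_cast hn.ne'
  rw [h2, h4, Representation.char_one, Representation.char_one, hfr, hfr,
    mul_div_cancel_right₀ _ hm0, mul_div_cancel_right₀ _ hn0]

end AMx
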