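import Pool.Agent.H73.AM.Basic

/-! Module C1. -/

set_option autoImplicit false

open scoped Classical

namespace AMx

open Module

/-- scalar through the trace -/
lemma scalar_eq {V : Type} [AddCommGroup V] [Module ℂ V] [FiniteDimensional ℂ V] {f : V →ₗ[ℂ] V}
    {c : ℂ} (h : f = c • 1) : LinearMap.trace ℂ V f = c * finrank ℂ V := by
  rw [h, irr_trace_smul_one]

lemma cf_isConj {G : Type} [Group G] (x : G) [DecidablePred (IsConj x)] :
    CF (fun y : G => if IsConj x y then (1 : ℂ) else 0) := by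
  intro g y
  have h : IsConj x (g * y * g⁻¹) ↔ IsConj x y := by
    have h1 : IsConj y (g * y * g⁻¹) := isConj_iff.mpr ⟨g, rfl⟩
    exact ⟨fun h => h.trans h1.symm, fun h => h.trans h1⟩
  simp only [h]

lemma cen_eq {G : Type} [Group G] [Fintype G] (χ : G → ℂ) (x : G) [DecidablePred (IsConj x)] :
    cen (MonoidHom.id G) χ x = (∑ y, (if IsConj x y then (1 : ℂ) else 0) * χ y) / χ 1 := by
  unfold cen
  congr 1
  refine Finset.sum_congr rfl fun y _ => ?_
  by_cases h : IsConj x y <;> simp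

theorem isIntegral_scalar {G V : Type} [Group G] [Fintype G] [AddCommGroup V] [Module ℂ V]
    [FiniteDimensional ℂ V] [Nontrivial V] (ρ : Representation ℂ G V) (a : G → ℤ) (c : ℂ)
    (h : op ρ (fun x => (a x : ℂ)) = c • 1) : IsIntegral ℤ c := by
  let φ : MonoidAlgebra ℤ G →ₐ[ℤ] Module.End ℂ V := MonoidAlgebra.lift ℤ _ G ρ
  let z : MonoidAlgebra ℤ G := ∑ x, MonoidAlgebra.single x (a x)
  have h1 : IsIntegral ℤ z := Algebra.IsIntegral.isIntegral z
  have h2 : IsIntegral ℤ (φ z) := h1.map φ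
  have h3 : φ z = algebraMap ℂ (Module.End ℂ V) c := by
    rw [Algebra.algebraMap_eq_smul_one, ← show op ρ (fun x => (a x : ℂ)) = c • 1 from h]
    simp only [z, map_sum, φ, MonoidAlgebra.lift_single, op]
    refine Finset.sum_congr rfl fun x _ => ?_
    exact (Int.cast_smul_eq_zsmul ℂ (a x) (ρ x)).symm
  rw [h3] at h2
  exact (isIntegral_algebraMap_iff (algebraMap ℂ (Module.End ℂ V)).injective).mp h2

lemma norm_irr {G V : Type} [Group G] [Fintype G] [AddCommGroup V] [Module ℂ V]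
    [FiniteDimensional ℂ V] (ρ : Representation ℂ G V) (hρ : ρ.IsIrreducible) :
    ∑ x, ρ.character x * ρ.character x⁻¹ = Nat.card G := by
  have hne : (Nat.card G : ℂ) ≠ 0 := by exact_mod_cast Nat.card_pos.ne'
  have : Invertible (Nat.card G : ℂ) := invertibleOfNonzero hne
  have h1 := Representation.char_orthonormal ρ ρ
  rw [if_pos ⟨Representation.Equiv.refl ρ⟩] at h1
  have h2 := congrArg (fun z => (Nat.card G : ℂ) * z) h1
  simp only [mul_one] at h2
  rwa [← mul_assoc, mul_inv_cancel₀ hne, one_mul] at h2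

theorem C1 : T_C1 := by
  rintro G _ _ χ ⟨n, ρ, hρ, rfl⟩
  have hn : 0 < n := AMc.irr_pos ρ hρ
  have h1 : ρ.character 1 = n := by rw [Representation.char_one]; simp
  have hfr : (finrank ℂ (Fin n → ℂ) : ℂ) = n := by simp
  have hn0 : (n : ℂ) ≠ 0 := by exact_mod_cast hn.ne'
  have hcf : CF ρ.character := fun g x => Representation.char_conj ρ x g
  have hsc : ∀ a : G → ℂ, CF a → ∃ c : ℂ, op ρ a = c • 1 ∧ ∑ x, a x * ρ.character x = c * n := by
    intro a ha
    obtain ⟨c, hc⟩ := op_scalar ρ hρ (op ρ a) (op_comm ρ ha)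
    refine ⟨c, hc, ?_⟩
    rw [← op_trace, scalar_eq hc, hfr]
  refine ⟨⟨⟨n, by exact_mod_cast hn, by rw [h1]; simp⟩, hcf, ?_, norm_irr ρ hρ⟩, ⟨n, hn, h1⟩,
    AMc.isIntegral_character ρ, ?_⟩
  · intro a b ha hb
    obtain ⟨c, hc, hc'⟩ := hsc a ha
    obtain ⟨d, hd, hd'⟩ := hsc b hb
    have h2 : op ρ (conv a b) = (c * d) • 1 := by
      rw [← op_mul, hc, hd, smul_mul_smul_comm, one_mul]
    have h3 : ∑ x, conv a b x * ρ.character x = c * d * n := by
      rw [← op_trace, scalar_eq h2, hfr]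
    rw [h3, hc', hd', h1]
    ring
  · intro x
    obtain ⟨c, hc, hc'⟩ := hsc _ (cf_isConj x)
    have : Nontrivial (Fin n → ℂ) := by
      have : Nonempty (Fin n) := ⟨⟨0, hn⟩⟩
      infer_instance
    rw [cen_eq, hc', h1, mul_div_cancel_right₀ _ hn0]
    refine isIntegral_scalar ρ (fun y => if IsConj x y then 1 else 0) c ?_
    rw [← hc]
    congr 1
    funext y
    push_cast
    rfl

end AMx
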