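import Pool.Agent.H4.AM.Targets
import Pool.Agent.H3.AM.A1

/-! Alperin–McKay modules C1, C2, C3, P1: operators attached to functions on the group,
existence of irreducible constituents. -/

set_option autoImplicit false

open scoped Classical

namespace AMx

open Module

section op

variable {G V : Type} [Group G] [Fintype G] [AddCommGroup V] [Module ℂ V]
  (ρ : Representation ℂ G V)

/-- the operator `∑ a x ρ x` -/
noncomputable def op (a : G → ℂ) : V →ₗ[ℂ] V := ∑ x, a x • ρ x

lemma op_apply (a : G → ℂ) (v : V) : op ρ a v = ∑ x, a x • ρ x v := by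
  simp [op, LinearMap.sum_apply]

lemma op_trace (a : G → ℂ) : LinearMap.trace ℂ V (op ρ a) = ∑ x, a x * ρ.character x := by
  simp [op, Representation.character, map_sum]

lemma op_mul (a b : G → ℂ) : op ρ a * op ρ b = op ρ (conv a b) := by
  have h1 : op ρ a * op ρ b = ∑ y, ∑ z, (a y * b z) • ρ (y * z) := by
    unfold op
    rw [Finset.sum_mul]
    refine Finset.sum_congr rfl fun y _ => ?_
    rw [Finset.mul_sum]
    refine Finset.sum_congr rfl fun z _ => ?_
    rw [smul_mul_assoc, mul_smul_comm, smul_smul, map_mul]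
  have h2 : op ρ (conv a b) = ∑ y, ∑ x, (a y * b (y⁻¹ * x)) • ρ x := by
    unfold op conv
    rw [Finset.sum_comm]
    refine Finset.sum_congr rfl fun x _ => ?_
    rw [Finset.sum_smul]
  rw [h1, h2]
  refine Finset.sum_congr rfl fun y _ => ?_
  rw [← Equiv.sum_comp (Equiv.mulLeft y) (fun x => (a y * b (y⁻¹ * x)) • ρ x)]
  refine Finset.sum_congr rfl fun z _ => ?_
  simp only [Equiv.coe_mulLeft, inv_mul_cancel_left]

lemma op_comm {a : G → ℂ} (ha : CF a) (g : G) : op ρ a * ρ g = ρ g * op ρ a := by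
  simp only [op, Finset.sum_mul, Finset.mul_sum]
  rw [← Equiv.sum_comp (MulAut.conj g).toEquiv (fun x => a x • ρ x * ρ g)]
  refine Finset.sum_congr rfl fun x _ => ?_
  have : (MulAut.conj g).toEquiv x = g * x * g⁻¹ := rfl
  rw [this, ha, smul_mul_assoc, mul_smul_comm, ← map_mul, ← map_mul]
  congr 2
  group

end op

/-- Schur's lemma for class functions -/
lemma op_scalar {G V : Type} [Group G] [Fintype G] [AddCommGroup V] [Module ℂ V]
    [FiniteDimensional ℂ V] (ρ : Representation ℂ G V) (hρ : ρ.IsIrreducible) (f : V →ₗ[ℂ] V)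
    (hf : ∀ g, f * ρ g = ρ g * f) : ∃ c : ℂ, f = c • 1 := by
  have hf' : ∀ g v, f (ρ g v) = ρ g (f v) := fun g v => by
    have := congrArg (fun h : V →ₗ[ℂ] V => h v) (hf g)
    simpa using this
  let F : Representation.IntertwiningMap ρ ρ :=
    LinearMap.intertwiningMap_of_isIntertwiningMap ρ ρ f hf'
  obtain ⟨c, hc⟩ :=
    (Representation.IsIrreducible.algebraMap_intertwiningMap_bijective_of_isAlgClosed
      (ρ := ρ)).2 F
  refine ⟨c, ?_⟩
  have h1 := congrArg (fun g : Representation.IntertwiningMap ρ ρ => g.toLinearMap) hc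
  rw [← show F.toLinearMap = f from rfl]
  rw [← h1]
  rfl

/-- existence of irreducible constituents -/
theorem exists_irr {G V : Type} [Group G] [AddCommGroup V] [Module ℂ V] [FiniteDimensional ℂ V]
    (ρ : Representation ℂ G V) (W : Submodule ℂ V) (hW : W ≠ ⊥)
    (hinv : ∀ g, ∀ v ∈ W, ρ g v ∈ W) :
    ∃ (n : ℕ) (σ : Representation ℂ G (Fin n → ℂ)) (f : (Fin n → ℂ) →ₗ[ℂ] V), σ.IsIrreducible ∧
      Function.Injective f ∧ (∀ v, f v ∈ W) ∧ ∀ g v, f (σ g v) = ρ g (f v) := by
  have hex : ∃ m : ℕ, ∃ W' : Submodule ℂ V, W' ≠ ⊥ ∧ W' ≤ W ∧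
      (∀ g, ∀ v ∈ W', ρ g v ∈ W') ∧ finrank ℂ W' = m := ⟨_, W, hW, le_rfl, hinv, rfl⟩
  obtain ⟨W', hW'1, hW'2, hW'3, hW'4⟩ := Nat.find_spec hex
  have hmin : ∀ U : Submodule ℂ V, U ≠ ⊥ → U ≤ W → (∀ g, ∀ v ∈ U, ρ g v ∈ U) →
      finrank ℂ W' ≤ finrank ℂ U := by
    intro U h1 h2 h3
    rw [hW'4]
    exact Nat.find_min' hex ⟨U, h1, h2, h3, rfl⟩
  let e : W' ≃ₗ[ℂ] (Fin (finrank ℂ W') → ℂ) := (finBasis ℂ W').equivFun
  let σ : Representation ℂ G (Fin (finrank ℂ W') → ℂ) :=
    { toFun := fun g => e.toLinearMap ∘ₗ ((ρ g).restrict (hW'3 g)) ∘ₗ e.symm.toLinearMap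
      map_one' := by
        ext v i
        simp [LinearMap.restrict_apply]
      map_mul' := by
        intro g h
        refine LinearMap.ext fun v => ?_
        simp [LinearMap.restrict_apply] }
  let f : (Fin (finrank ℂ W') → ℂ) →ₗ[ℂ] V := W'.subtype ∘ₗ e.symm.toLinearMap
  have hfinj : Function.Injective f := by
    intro a b hab
    exact e.symm.injective (Subtype.ext hab)
  have hσ : ∀ g v, f (σ g v) = ρ g (f v) := by
    intro g v
    simp [f, σ, LinearMap.restrict_apply]
  have hrange : LinearMap.range f = W' := by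
    apply le_antisymm
    · rintro _ ⟨v, rfl⟩
      exact (e.symm v).2
    · intro w hw
      exact ⟨e ⟨w, hw⟩, by simp [f]⟩
  refine ⟨finrank ℂ W', σ, f, ?_, hfinj, fun v => hW'2 (e.symm v).2, hσ⟩
  have hnt : Nontrivial (Subrepresentation σ) := by
    refine ⟨⊥, ⊤, fun hbt => hW'1 ?_⟩
    have h1 : (⊥ : Submodule ℂ (Fin (finrank ℂ W') → ℂ)) = ⊤ :=
      congrArg Subrepresentation.toSubmodule hbt
    rw [← hrange, ← Submodule.map_top, ← h1, Submodule.map_bot]
  refine { toNontrivial := hnt, eq_bot_or_eq_top := fun U => ?_ }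
  by_cases hU : U.toSubmodule = ⊥
  · left
    exact Subrepresentation.toSubmodule_injective hU
  · right
    have h1 : U.toSubmodule.map f ≤ W' := le_of_le_of_eq LinearMap.map_le_range hrange
    have h2 : U.toSubmodule.map f ≠ ⊥ := by
      intro h
      apply hU
      rw [eq_bot_iff]
      intro v hv
      have h5 : f v ∈ U.toSubmodule.map f := ⟨v, hv, rfl⟩
      rw [h, Submodule.mem_bot] at h5
      exact (Submodule.mem_bot ℂ).mpr (hfinj (by rw [h5, map_zero]))
    have h3 := hmin (U.toSubmodule.map f) h2 (h1.trans hW'2) (by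
      rintro g _ ⟨v, hv, rfl⟩
      exact ⟨σ g v, U.apply_mem_toSubmodule g hv, hσ g v⟩)
    have h4 : U.toSubmodule.map f = W' := Submodule.eq_of_le_of_finrank_le h1 h3
    apply Subrepresentation.toSubmodule_injective
    refine Submodule.eq_top_iff'.mpr fun v => ?_
    have h5 : f v ∈ U.toSubmodule.map f := h4.ge (e.symm v).2
    obtain ⟨w, hw, hwv⟩ := h5
    rwa [hfinj hwv] at hw

lemma irr_trace_smul_one {V : Type} [AddCommGroup V] [Module ℂ V] [FiniteDimensional ℂ V] (c : ℂ) :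
    LinearMap.trace ℂ V (c • 1) = c * finrank ℂ V := by
  rw [map_smul, LinearMap.trace_one, smul_eq_mul]

end AMx
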