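import Pool.Agent.H73.AM.C23

/-! Module P1. -/

set_option autoImplicit false

open scoped Classical

namespace AMx

open Module

section prod

variable {G K : Type} [Group G] [Fintype G] [Group K] [Fintype K]

lemma isIrr_prod {χ : G → ℂ} {ψ : K → ℂ} (hχ : IsIrr χ) (hψ : IsIrr ψ) :
    IsIrr (fun p : G × K => χ p.1 * ψ p.2) := by
  refine IsIrr.of_key ?_ ?_ ?_ ?_
  · obtain ⟨r, hr, hr1⟩ := hχ.pos
    obtain ⟨s, hs, hs1⟩ := hψ.pos
    refine ⟨r * s, mul_pos hr hs, ?_⟩
    simp only [Prod.fst_one, Prod.snd_one]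
    rw [hr1, hs1]
    push_cast
    ring
  · rintro ⟨g, k⟩ ⟨x, y⟩
    simp only [Prod.mk_mul_mk, Prod.inv_mk]
    rw [hχ.cf, hψ.cf]
  · rw [Fintype.sum_prod_type]
    simp only [Prod.inv_mk]
    rw [Nat.card_prod, Nat.cast_mul, ← hχ.norm, ← hψ.norm, Finset.sum_mul_sum]
    refine Finset.sum_congr rfl fun x _ => Finset.sum_congr rfl fun y _ => ?_
    ring
  · rintro ⟨x, x'⟩ ⟨y, y'⟩
    rw [Fintype.sum_prod_type]
    simp only [Prod.mk_mul_mk, Prod.inv_mk, Prod.fst_one, Prod.snd_one]
    rw [← Finset.sum_mul_sum, Nat.card_prod, Nat.cast_mul]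
    have h1 := hχ.key x y
    have h2 := hψ.key x' y'
    calc χ x * ψ x' * (χ y * ψ y') * (Nat.card G * Nat.card K) =
        (χ x * χ y * Nat.card G) * (ψ x' * ψ y' * Nat.card K) := by ring
      _ = _ := by rw [h1, h2]; ring

theorem P1 : T_P1 := by
  intro G K _ _ _ _ φ
  constructor
  · intro hφ
    have hirr := (C1 (G × K) φ hφ).1
    obtain ⟨χ, hχ, hχ'⟩ := C3 (G × K) G (MonoidHom.inl G K) φ hφ
    obtain ⟨ψ, hψ, hψ'⟩ := C3 (G × K) K (MonoidHom.inr G K) φ hφ
    have hχi := (C1 G χ hχ).1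
    have hψi := (C1 K ψ hψ).1
    refine ⟨χ, hχ, ψ, hψ, ?_⟩
    have hG := card_ne (G := G)
    have hK := card_ne (G := K)
    have hφ1 := hirr.one_ne
    have hχ1 := hχi.one_ne
    have hψ1 := hψi.one_ne
    have hcf1 : CF (fun g : G => φ (g, 1)) := by
      intro g x
      have := hirr.cf (g, 1) (x, 1)
      simpa using this
    have hcf2 : CF (fun k : K => φ (1, k)) := by
      intro g x
      have := hirr.cf (1, g) (1, x)
      simpa using this
    have e1 : ∀ x : G, φ (x, 1) / φ 1 = χ x / χ 1 := by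
      intro x
      have h1 := hχ' (ca x) (by
        rintro ⟨g, k⟩ ⟨y, z⟩
        simp only [Prod.mk_mul_mk, Prod.inv_mk, MonoidHom.inl_apply, Prod.mk.injEq]
        by_cases h : (1 : K) = z
        · subst h
          simp only [mul_one, mul_inv_cancel, and_true, Finset.sum_ite_eq', Finset.mem_univ,
            if_true]
          exact ca_cf x g y
        · have h' : ¬ (1 = k * z * k⁻¹) := fun h2 => h (conj_eq_one_iff.mp h2.symm).symm
          simp only [h, h', and_false, if_false])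
      simp only [MonoidHom.inl_apply] at h1
      rw [sum_ca_cf x hcf1, sum_ca_cf x hχi.cf, mul_div_assoc, mul_div_assoc] at h1
      exact mul_left_cancel₀ hG h1
    have e2 : ∀ x : K, φ (1, x) / φ 1 = ψ x / ψ 1 := by
      intro x
      have h1 := hψ' (ca x) (by
        rintro ⟨k, g⟩ ⟨z, y⟩
        simp only [Prod.mk_mul_mk, Prod.inv_mk, MonoidHom.inr_apply, Prod.mk.injEq]
        by_cases h : (1 : G) = z
        · subst h
          simp only [mul_one, mul_inv_cancel, true_and, Finset.sum_ite_eq', Finset.mem_univ,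
            if_true]
          exact ca_cf x g y
        · have h' : ¬ (1 = k * z * k⁻¹) := fun h2 => h (conj_eq_one_iff.mp h2.symm).symm
          simp only [h, h', false_and, if_false])
      simp only [MonoidHom.inr_apply] at h1
      rw [sum_ca_cf x hcf2, sum_ca_cf x hψi.cf, mul_div_assoc, mul_div_assoc] at h1
      exact mul_left_cancel₀ hK h1
    obtain ⟨r1, hr1, hr1'⟩ := hirr.pos
    obtain ⟨r2, hr2, hr2'⟩ := hχi.pos
    obtain ⟨r3, hr3, hr3'⟩ := hψi.pos
    have hval : ∀ p : G × K, φ p = ((r1 / (r2 * r3) : ℝ) : ℂ) * (χ p.1 * ψ p.2) := by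
      rintro ⟨x, y⟩
      have h1 := hirr.key (x, 1) (1, y)
      have h2 : ∀ g : G × K, φ ((x, 1) * (g * (1, y) * g⁻¹)) = φ (x, y) := by
        rintro ⟨g, k⟩
        have h3 := hirr.cf (1, k) (x, y)
        simp only [Prod.mk_mul_mk, Prod.inv_mk] at h3 ⊢
        rw [← h3]
        congr 2
        · simp
        · simp
      simp only [h2] at h1
      rw [Finset.sum_const, Finset.card_univ, ← Nat.card_eq_fintype_card, nsmul_eq_mul] at h1
      have hGK := card_ne (G := G × K)
      have h3 : φ (x, 1) * φ (1, y) = φ 1 * φ (x, y) := by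
        apply mul_right_cancel₀ hGK
        rw [h1]; ring
      have h4 := e1 x
      have h5 := e2 y
      rw [hr1'] at h3 h4 h5
      rw [hr2'] at h4
      rw [hr3'] at h5
      have hr1c : (r1 : ℂ) ≠ 0 := by exact_mod_cast hr1.ne'
      have hr2c : (r2 : ℂ) ≠ 0 := by exact_mod_cast hr2.ne'
      have hr3c : (r3 : ℂ) ≠ 0 := by exact_mod_cast hr3.ne'
      rw [div_eq_div_iff hr1c hr2c] at h4
      rw [div_eq_div_iff hr1c hr3c] at h5
      push_cast
      rw [div_mul_eq_mul_div, eq_div_iff (mul_ne_zero hr2c hr3c)]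
      apply mul_left_cancel₀ hr1c
      calc (r1 : ℂ) * (φ (x, y) * (r2 * r3)) = (r1 * φ (x, y)) * r2 * r3 := by ring
        _ = (φ (x, 1) * r2) * (φ (1, y) * r3) := by rw [← h3]; ring
        _ = _ := by rw [h4, h5]; ring
    have hprod := (isIrr_prod hχi hψi).norm
    have hnorm := hirr.norm
    have hGK := card_ne (G := G × K)
    set r : ℝ := r1 / (r2 * r3) with hr
    have hrpos : 0 < r := by positivity
    have h3 : (r : ℂ) ^ 2 * Nat.card (G × K) = Nat.card (G × K) := by
      rw [← hprod, Finset.mul_sum]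
      calc ∑ p : G × K, (r : ℂ) ^ 2 * (χ p.1 * ψ p.2 * (χ p⁻¹.1 * ψ p⁻¹.2)) =
          ∑ p, φ p * φ p⁻¹ := by
            refine Finset.sum_congr rfl fun p _ => ?_
            rw [hval p, hval p⁻¹]
            ring
        _ = _ := by rw [hnorm, hprod]
    have h4 : (r : ℂ) ^ 2 = 1 := by
      apply mul_right_cancel₀ hGK
      rw [h3, one_mul]
    have h5 : r ^ 2 = 1 := by exact_mod_cast h4
    have h7 : r = 1 := by nlinarith [h5, hrpos]
    funext p
    rw [hval p, h7]
    simp
  · rintro ⟨χ, hχ, ψ, hψ, rfl⟩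
    exact C2 (G × K) _ (isIrr_prod (C1 G χ hχ).1 (C1 K ψ hψ).1)

end prod

end AMx
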