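import Pool.Agent.H98.AM.Targets

/-!
# MP_29bb0a_mp, module E1: a trigonometric polynomial is dominated by its Fejer mean
-/

open Polynomial
open scoped ComplexConjugate

noncomputable section

namespace Pool.Agent.H73.AM

open Pool.Agent.H98.AM

theorem ex_add (a b : ℝ) : ex (a + b) = ex a * ex b := by
  unfold ex
  rw [← Complex.exp_add]
  congr 1
  push_cast
  ring

theorem conj_ex (a : ℝ) : conj (ex a) = ex (-a) := by
  unfold ex
  rw [← Complex.exp_conj]
  congr 1
  have h2 : (starRingEnd ℂ) 2 = 2 := by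
    rw [show (2 : ℂ) = ((2 : ℝ) : ℂ) by norm_num, Complex.conj_ofReal]
  simp [h2]

theorem ex_zero : ex 0 = 1 := by simp [ex]

theorem continuous_ex : Continuous ex := by
  unfold ex
  fun_prop

theorem norm_ex (a : ℝ) : ‖ex a‖ = 1 := by
  unfold ex
  have : (2 * Real.pi * a * Complex.I : ℂ) = ((2 * Real.pi * a : ℝ) : ℂ) * Complex.I := by
    push_cast; ring
  rw [this, Complex.norm_exp_ofReal_mul_I]

theorem integral_ex (n : ℤ) : ∫ φ in (0 : ℝ)..1, ex (n * φ) = if n = 0 then 1 else 0 := by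
  split_ifs with h
  · subst h
    simp [ex]
  · have hc : (2 * Real.pi * n * Complex.I : ℂ) ≠ 0 := by
      have h1 : (n : ℂ) ≠ 0 := by exact_mod_cast h
      have h2 : (Real.pi : ℂ) ≠ 0 := by exact_mod_cast Real.pi_ne_zero
      simp [h1, h2, Complex.I_ne_zero]
    have h1 : ∀ φ : ℝ, ex (n * φ) = Complex.exp ((2 * Real.pi * n * Complex.I) * φ) := by
      intro φ
      unfold ex
      congr 1
      push_cast
      ring
    simp_rw [h1]
    rw [integral_exp_mul_complex hc]
    have h2 : Complex.exp ((2 * Real.pi * n * Complex.I : ℂ) * (1 : ℝ)) = 1 := by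
      have := Complex.exp_int_mul_two_pi_mul_I n
      rw [← this]
      congr 1
      push_cast
      ring
    rw [h2]
    simp

/-- number of pairs with difference `k` -/
theorem card_diff (M : ℕ) (k : ℤ) (hk : |k| ≤ M) :
    ((((Finset.range M) ×ˢ (Finset.range M)).filter (fun x : ℕ × ℕ => (x.1 : ℤ) - x.2 = k)).card : ℤ)
      = M - |k| := by
  rcases le_total 0 k with h | h
  · obtain ⟨a, rfl⟩ := Int.eq_ofNat_of_zero_le h
    rw [abs_of_nonneg h] at hk ⊢
    have ha : a ≤ M := by exact_mod_cast hk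
    have : ((Finset.range M) ×ˢ (Finset.range M)).filter (fun x : ℕ × ℕ => (x.1 : ℤ) - x.2 = a)
        = (Finset.range (M - a)).image (fun j => (j + a, j)) := by
      ext ⟨x, y⟩
      simp only [Finset.mem_filter, Finset.mem_product, Finset.mem_range, Finset.mem_image,
        Prod.mk.injEq]
      constructor
      · rintro ⟨⟨h1, h2⟩, h3⟩
        exact ⟨y, by omega, by omega, rfl⟩
      · rintro ⟨j, h1, h2, h3⟩
        omega
    rw [this, Finset.card_image_of_injective _ (fun i j hij => by simpa using congrArg Prod.snd hij),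
      Finset.card_range]
    omega
  · obtain ⟨a, ha'⟩ := Int.eq_ofNat_of_zero_le (neg_nonneg.mpr h)
    have hka : k = -(a : ℤ) := by omega
    subst hka
    rw [abs_of_nonpos h] at hk ⊢
    have ha : a ≤ M := by
      have : (a : ℤ) ≤ M := by linarith
      exact_mod_cast this
    have : ((Finset.range M) ×ˢ (Finset.range M)).filter
        (fun x : ℕ × ℕ => (x.1 : ℤ) - x.2 = -(a : ℤ))
        = (Finset.range (M - a)).image (fun j => (j, j + a)) := by
      ext ⟨x, y⟩
      simp only [Finset.mem_filter, Finset.mem_product, Finset.mem_range, Finset.mem_image,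
        Prod.mk.injEq]
      constructor
      · rintro ⟨⟨h1, h2⟩, h3⟩
        exact ⟨x, by omega, rfl, by omega⟩
      · rintro ⟨j, h1, h2, h3⟩
        omega
    rw [this, Finset.card_image_of_injective _ (fun i j hij => by simpa using congrArg Prod.fst hij),
      Finset.card_range]
    omega

/-- the square of the Dirichlet kernel -/
theorem kernel_eq (M : ℕ) (x : ℝ) :
    ((Complex.normSq (∑ j ∈ Finset.range M, ex (j * x)) : ℝ) : ℂ) =
      ∑ y ∈ (Finset.range M) ×ˢ (Finset.range M), ex (((y.1 : ℤ) - y.2 : ℤ) * x) := by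
  rw [Complex.normSq_eq_conj_mul_self, mul_comm, map_sum, Finset.sum_mul_sum,
    Finset.sum_product]
  refine Finset.sum_congr rfl fun i _ => Finset.sum_congr rfl fun j _ => ?_
  rw [conj_ex, ← ex_add]
  congr 1
  push_cast
  ring

/-- Fejer means of trigonometric polynomials -/
theorem fejer (M N : ℕ) (hM : 1 ≤ M) (hNM : N ≤ M) (c : ℤ → ℂ) (g : ℝ → ℝ)
    (hg : ∀ θ, ((g θ : ℝ) : ℂ) = ∑ k ∈ Finset.Icc (-(N : ℤ)) N, c k * ex (k * θ)) (θ : ℝ) :
    (((∫ φ in (0 : ℝ)..1,
      (1 / (M : ℝ)) * Complex.normSq (∑ j ∈ Finset.range M, ex (j * (θ - φ))) * g φ) : ℝ) : ℂ)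
    = ∑ k ∈ Finset.Icc (-(N : ℤ)) N, (1 - |(k : ℝ)| / M : ℝ) * (c k * ex (k * θ)) := by
  rw [← intervalIntegral.integral_ofReal]
  have h1 : ∀ φ : ℝ, (((1 / (M : ℝ)) * Complex.normSq (∑ j ∈ Finset.range M, ex (j * (θ - φ)))
      * g φ : ℝ) : ℂ) = ∑ k ∈ Finset.Icc (-(N : ℤ)) N,
        ∑ y ∈ (Finset.range M) ×ˢ (Finset.range M),
        ((1 / (M : ℂ)) * c k * ex (((y.1 : ℤ) - y.2 : ℤ) * θ)) *
          ex ((k - ((y.1 : ℤ) - y.2) : ℤ) * φ) := by
    intro φ
    push_cast
    rw [kernel_eq, hg, Finset.mul_sum]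
    refine Finset.sum_congr rfl fun k _ => ?_
    rw [Finset.mul_sum, Finset.sum_mul]
    refine Finset.sum_congr rfl fun y _ => ?_
    have : ex (((y.1 : ℤ) - y.2 : ℤ) * (θ - φ)) * ex (k * φ) =
        ex (((y.1 : ℤ) - y.2 : ℤ) * θ) * ex ((k - ((y.1 : ℤ) - y.2) : ℤ) * φ) := by
      rw [← ex_add, ← ex_add]
      congr 1
      push_cast
      ring
    push_cast at this ⊢
    linear_combination (1 / (M : ℂ)) * c k * this
  simp_rw [h1]
  rw [intervalIntegral.integral_finsetSum]
  · refine Finset.sum_congr rfl fun k hk => ?_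
    rw [intervalIntegral.integral_finsetSum]
    · simp_rw [intervalIntegral.integral_const_mul, integral_ex]
      have h2 : ∀ y ∈ (Finset.range M) ×ˢ (Finset.range M),
          (1 / (M : ℂ)) * c k * ex (((y.1 : ℤ) - y.2 : ℤ) * θ) *
          (if (k - ((y.1 : ℤ) - y.2) : ℤ) = 0 then (1 : ℂ) else 0) =
          if ((y.1 : ℤ) - y.2) = k then (1 / (M : ℂ)) * c k * ex (k * θ) else 0 := by
        intro y _
        by_cases h : ((y.1 : ℤ) - y.2) = k
        · rw [if_pos h, if_pos (by omega), mul_one, h]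
        · rw [if_neg h, if_neg (by omega), mul_zero]
      rw [Finset.sum_congr rfl h2, ← Finset.sum_filter, Finset.sum_const, nsmul_eq_mul]
      have hk' : |k| ≤ M := by
        rw [Finset.mem_Icc] at hk
        rw [abs_le]
        constructor <;> omega
      have h3 := card_diff M k hk'
      have h4 : ((((Finset.range M) ×ˢ (Finset.range M)).filter
          (fun x : ℕ × ℕ => (x.1 : ℤ) - x.2 = k)).card : ℂ) = M - |(k : ℝ)| := by
        have : (((((Finset.range M) ×ˢ (Finset.range M)).filter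
          (fun x : ℕ × ℕ => (x.1 : ℤ) - x.2 = k)).card : ℤ) : ℝ) = ((M - |k| : ℤ) : ℝ) := by
          rw [h3]
        push_cast at this
        have h5 : ((((((Finset.range M) ×ˢ (Finset.range M)).filter
          (fun x : ℕ × ℕ => (x.1 : ℤ) - x.2 = k)).card : ℝ)) : ℂ) = ((M - |(k : ℝ)| : ℝ) : ℂ) := by
          rw [this]
        push_cast at h5
        simpa using h5
      rw [h4]
      have hM0 : (M : ℂ) ≠ 0 := by
        have : M ≠ 0 := by omega
        exact_mod_cast this
      push_cast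
      field_simp
    · intro y _
      apply Continuous.intervalIntegrable
      have := continuous_ex
      fun_prop
  · intro k _
    apply Continuous.intervalIntegrable
    have := continuous_ex
    fun_prop

theorem e1 : T_E1 := by
  intro N g hN hg hpos θ
  obtain ⟨c, hc⟩ := hg
  replace hc : ∀ θ, ((g θ : ℝ) : ℂ) = ∑ k ∈ Finset.Icc (-(N : ℤ)) N, c k * ex (k * θ) := hc
  have h1 := fejer (2 * N) N (by omega) (by omega) c g hc θ
  have h2 := fejer N N hN le_rfl c g hc θ
  have h3 : (g θ : ℂ) = 2 * (((∫ φ in (0 : ℝ)..1,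
      (1 / ((2 * N : ℕ) : ℝ)) * Complex.normSq (∑ j ∈ Finset.range (2 * N), ex (j * (θ - φ))) * g φ)
        : ℝ) : ℂ) -
      (((∫ φ in (0 : ℝ)..1,
      (1 / (N : ℝ)) * Complex.normSq (∑ j ∈ Finset.range N, ex (j * (θ - φ))) * g φ) : ℝ) : ℂ) := by
    rw [h1, h2, hc θ, Finset.mul_sum, ← Finset.sum_sub_distrib]
    refine Finset.sum_congr rfl fun k _ => ?_
    have hN0 : (N : ℂ) ≠ 0 := by
      have : N ≠ 0 := by omega
      exact_mod_cast this
    push_cast
    field_simp
    ring
  have h4 : g θ = 2 * (∫ φ in (0 : ℝ)..1,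
      (1 / ((2 * N : ℕ) : ℝ)) * Complex.normSq (∑ j ∈ Finset.range (2 * N), ex (j * (θ - φ))) * g φ)
      - (∫ φ in (0 : ℝ)..1,
      (1 / (N : ℝ)) * Complex.normSq (∑ j ∈ Finset.range N, ex (j * (θ - φ))) * g φ) := by
    exact_mod_cast h3
  have h5 : 0 ≤ ∫ φ in (0 : ℝ)..1,
      (1 / (N : ℝ)) * Complex.normSq (∑ j ∈ Finset.range N, ex (j * (θ - φ))) * g φ := by
    apply intervalIntegral.integral_nonneg (by norm_num)
    intro φ _
    have := Complex.normSq_nonneg (∑ j ∈ Finset.range N, ex (j * (θ - φ)))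
    have := hpos φ
    positivity
  push_cast at h4
  linarith

end Pool.Agent.H73.AM
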