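import Pool.Agent.H73.AM.E1

/-!
# MP_29bb0a_mp, module E2: simultaneous bound
-/

open Polynomial
open scoped ComplexConjugate

noncomputable section

namespace Pool.Agent.H73.AM

open Pool.Agent.H98.AM

theorem norm_one_sub_ex (u : ℝ) : ‖1 - ex u‖ = 2 * |Real.sin (Real.pi * u)| := by
  have h := Complex.norm_exp_I_mul_ofReal_sub_one (2 * Real.pi * u)
  have h1 : Complex.exp (Complex.I * ((2 * Real.pi * u : ℝ) : ℂ)) = ex u := by
    unfold ex
    congr 1
    push_cast
    ring
  rw [h1, norm_sub_rev] at h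
  rw [h, Real.norm_eq_abs, abs_mul, abs_two]
  congr 3
  ring

theorem jordan {t : ℝ} (h0 : 0 ≤ t) (h1 : t ≤ 1) : 2 * min t (1 - t) ≤ |Real.sin (Real.pi * t)| := by
  have hpi := Real.pi_pos
  have hs : 0 ≤ Real.sin (Real.pi * t) :=
    Real.sin_nonneg_of_nonneg_of_le_pi (by positivity) (by nlinarith)
  rw [abs_of_nonneg hs]
  rcases le_total t (1 / 2) with h | h
  · rw [min_eq_left (by linarith)]
    have := Real.mul_le_sin (x := Real.pi * t) (by positivity) (by nlinarith)
    calc 2 * t = 2 / Real.pi * (Real.pi * t) := by field_simp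
      _ ≤ _ := this
  · rw [min_eq_right (by linarith)]
    have := Real.mul_le_sin (x := Real.pi * (1 - t)) (by nlinarith) (by nlinarith)
    have h2 : Real.sin (Real.pi * t) = Real.sin (Real.pi * (1 - t)) := by
      rw [show Real.pi * (1 - t) = Real.pi - Real.pi * t by ring, Real.sin_pi_sub]
    rw [h2]
    calc 2 * (1 - t) = 2 / Real.pi * (Real.pi * (1 - t)) := by field_simp
      _ ≤ _ := this

theorem ex_nat_mul (j : ℕ) (u : ℝ) : ex (j * u) = ex u ^ j := by
  unfold ex
  rw [← Complex.exp_nat_mul]
  congr 1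
  push_cast
  ring

theorem geom_bound (M : ℕ) (t : ℝ) (h0 : 0 < t) (h1 : t < 1) :
    ‖∑ j ∈ Finset.range M, ex (j * (-t))‖ ≤ 1 / (2 * min t (1 - t)) := by
  have hm : 0 < min t (1 - t) := lt_min h0 (by linarith)
  have h2 : 4 * min t (1 - t) ≤ ‖1 - ex (-t)‖ := by
    rw [norm_one_sub_ex, mul_neg, Real.sin_neg, abs_neg]
    have := jordan h0.le h1.le
    linarith
  have h3 : (∑ j ∈ Finset.range M, ex (j * (-t))) * (1 - ex (-t)) = 1 - ex (M * (-t)) := by
    simp_rw [ex_nat_mul]
    exact geom_sum_mul_neg _ _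
  have h4 : ‖∑ j ∈ Finset.range M, ex (j * (-t))‖ * ‖1 - ex (-t)‖ ≤ 2 := by
    rw [← norm_mul, h3]
    refine (norm_sub_le _ _).trans ?_
    rw [norm_ex]
    norm_num
  rw [le_div_iff₀ (by positivity)]
  have h5 := norm_nonneg (∑ j ∈ Finset.range M, ex (j * (-t)))
  nlinarith

theorem trivial_bound (M : ℕ) (u : ℝ) : ‖∑ j ∈ Finset.range M, ex (j * u)‖ ≤ M := by
  refine (norm_sum_le _ _).trans ?_
  simp [norm_ex]

theorem trig_continuous {N : ℕ} {g : ℝ → ℝ} (hg : TrigDeg N (fun θ => (g θ : ℂ))) :
    Continuous g := by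
  obtain ⟨c, hc⟩ := hg
  have h1 : Continuous (fun θ => (g θ : ℂ)) := by
    have : (fun θ => (g θ : ℂ)) = fun θ => ∑ k ∈ Finset.Icc (-(N : ℤ)) N, c k * ex (k * θ) :=
      funext hc
    rw [this]
    have := continuous_ex
    fun_prop
  have h2 : g = fun θ => ((g θ : ℂ)).re := by
    funext θ
    simp
  rw [h2]
  exact Complex.continuous_re.comp h1

theorem integral_inv_sq {a b : ℝ} (ha : 0 < a) (hb : a ≤ b) :
    ∫ φ in a..b, 1 / φ ^ 2 = 1 / a - 1 / b := by
  have h : ∀ x ∈ Set.uIcc a b, HasDerivAt (fun x : ℝ => -(1 / x)) (1 / x ^ 2) x := by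
    intro x hx
    rw [Set.uIcc_of_le hb] at hx
    have hx0 : x ≠ 0 := (lt_of_lt_of_le ha hx.1).ne'
    have h2 := (hasDerivAt_inv hx0).neg
    have e : (fun x : ℝ => -(1 / x)) = fun y : ℝ => -(y⁻¹) := by
      funext y
      rw [one_div]
    rw [e]
    refine HasDerivAt.congr_deriv h2 ?_
    rw [neg_neg, one_div]
  rw [intervalIntegral.integral_eq_sub_of_hasDerivAt h]
  · ring
  · apply ContinuousOn.intervalIntegrable
    intro x hx
    rw [Set.uIcc_of_le hb] at hx
    have hx0 : x ≠ 0 := (lt_of_lt_of_le ha hx.1).ne'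
    apply ContinuousAt.continuousWithinAt
    have : x ^ 2 ≠ 0 := pow_ne_zero 2 hx0
    fun_prop (disch := assumption)

theorem e2 : T_E2 := by
  intro N κ _ g hN hg hpos hsum x hx
  set F : ℝ → ℝ := fun u => (1 / (2 * N : ℝ)) * Complex.normSq (∑ j ∈ Finset.range (2 * N),
    ex (j * u)) with hF
  have hNr : (1 : ℝ) ≤ N := by exact_mod_cast hN
  have hcont : ∀ k, Continuous (g k) := fun k => trig_continuous (hg k)
  have hFc : Continuous F := by
    have := continuous_ex
    have := Complex.continuous_normSq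
    fun_prop
  set S : ℝ → ℝ := fun φ => ∑ k, F (x k - φ) * g k φ with hS
  have hSc : Continuous S := by
    have := hcont
    fun_prop
  have h1 : ∑ k, g k (x k) ≤ 2 * ∫ φ in (0 : ℝ)..1, S φ := by
    have h2 : ∀ k, g k (x k) ≤ 2 * ∫ φ in (0 : ℝ)..1, F (x k - φ) * g k φ := fun k =>
      e1 N (g k) hN (hg k) (hpos k) (x k)
    refine (Finset.sum_le_sum fun k _ => h2 k).trans (le_of_eq ?_)
    rw [← Finset.mul_sum, hS, intervalIntegral.integral_finsetSum]
    intro k _
    apply Continuous.intervalIntegrable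
    have := hcont k
    fun_prop
  have hF0 : ∀ u, 0 ≤ F u := fun u => by
    have := Complex.normSq_nonneg (∑ j ∈ Finset.range (2 * N), ex (j * u))
    rw [hF]
    positivity
  have hFN : ∀ u, F u ≤ 2 * N := by
    intro u
    rw [hF]
    have h3 := trivial_bound (2 * N) u
    have h4 : Complex.normSq (∑ j ∈ Finset.range (2 * N), ex (j * u)) ≤ (2 * N : ℝ) ^ 2 := by
      rw [Complex.normSq_eq_norm_sq]
      push_cast at h3
      gcongr
    calc 1 / (2 * N : ℝ) * _ ≤ 1 / (2 * N : ℝ) * (2 * N : ℝ) ^ 2 := by gcongr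
      _ = 2 * N := by field_simp
  have hSb : ∀ φ B : ℝ, 0 ≤ B → (∀ k, F (x k - φ) ≤ B) → S φ ≤ 2 * B := by
    intro φ B hB h
    rw [hS]
    calc ∑ k, F (x k - φ) * g k φ ≤ ∑ k, B * g k φ :=
          Finset.sum_le_sum fun k _ => mul_le_mul_of_nonneg_right (h k) (hpos k φ)
      _ = B * ∑ k, g k φ := by rw [Finset.mul_sum]
      _ ≤ B * 2 := mul_le_mul_of_nonneg_left (hsum φ) hB
      _ = 2 * B := by ring
  have hInt : ∀ a b : ℝ, IntervalIntegrable S MeasureTheory.volume a b := fun a b =>
    hSc.intervalIntegrable a b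
  have hconst : ∀ a b : ℝ, a ≤ b → ∫ φ in a..b, S φ ≤ (b - a) * (4 * N) := by
    intro a b hab
    have : ∫ φ in a..b, S φ ≤ ∫ φ in a..b, (4 * N : ℝ) := by
      apply intervalIntegral.integral_mono_on hab (hInt a b) (by simp)
      intro φ _
      have := hSb φ (2 * N) (by positivity) (fun k => hFN _)
      linarith
    rw [intervalIntegral.integral_const, smul_eq_mul] at this
    exact this
  rcases lt_or_ge N 4 with hN4 | hN4
  · have h2 := hconst 0 1 (by norm_num)
    have h3 : (N : ℝ) ≤ 3 := by
      have : N ≤ 3 := by omega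
      exact_mod_cast this
    linarith
  · have hN4' : (4 : ℝ) ≤ N := by exact_mod_cast hN4
    set a : ℝ := 2 / N with ha
    have ha0 : 0 < a := by positivity
    have ha1 : a ≤ 1 / 2 := by
      rw [ha, div_le_iff₀ (by linarith)]
      linarith
    have haN : a * N = 2 := by rw [ha]; field_simp
    have hmid : ∫ φ in a..(1 - a), S φ ≤ 1 := by
      have h5 : ∀ φ ∈ Set.Icc a (1 - a), S φ ≤ (1 / N) * (1 / φ ^ 2 + 1 / (1 - φ) ^ 2) := by
        intro φ hφ
        have hφ0 : 0 < φ := lt_of_lt_of_le ha0 hφ.1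
        have hφ1 : 0 < 1 - φ := by linarith [hφ.2]
        have h6 := hSb φ (1 / (2 * N) * (1 / φ ^ 2 + 1 / (1 - φ) ^ 2)) (by positivity) ?_
        · refine h6.trans (le_of_eq ?_)
          field_simp
        · intro k
          have hxk := abs_le.mp (hx k)
          have hN1 : 1 / (N : ℝ) = a / 2 := by rw [ha]; field_simp
          rw [hN1] at hxk
          set t := φ - x k with ht
          have ht0 : 0 < t := by linarith [hφ.1, hxk.2]
          have ht1 : t < 1 := by linarith [hφ.2, hxk.1]
          have hu : x k - φ = -t := by ring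
          have h7 := geom_bound (2 * N) t ht0 ht1
          have h8 : min φ (1 - φ) ≤ 2 * min t (1 - t) := by
            rcases le_total t (1 - t) with h | h
            · rw [min_eq_left h]
              refine (min_le_left _ _).trans ?_
              linarith [hφ.1, hxk.2]
            · rw [min_eq_right h]
              refine (min_le_right _ _).trans ?_
              linarith [hφ.2, hxk.1]
          have hmφ : 0 < min φ (1 - φ) := lt_min hφ0 hφ1
          have h9 : ‖∑ j ∈ Finset.range (2 * N), ex (j * (x k - φ))‖ ≤ 1 / min φ (1 - φ) := by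
            rw [hu]
            exact h7.trans (one_div_le_one_div_of_le hmφ h8)
          have h10 : (1 / min φ (1 - φ)) ^ 2 ≤ 1 / φ ^ 2 + 1 / (1 - φ) ^ 2 := by
            rcases le_total φ (1 - φ) with h | h
            · rw [min_eq_left h, div_pow, one_pow]
              have : 0 ≤ 1 / (1 - φ) ^ 2 := by positivity
              linarith
            · rw [min_eq_right h, div_pow, one_pow]
              have : 0 ≤ 1 / φ ^ 2 := by positivity
              linarith
          rw [hF]
          simp only
          rw [Complex.normSq_eq_norm_sq]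
          have h11 : ‖∑ j ∈ Finset.range (2 * N), ex (j * (x k - φ))‖ ^ 2 ≤
              1 / φ ^ 2 + 1 / (1 - φ) ^ 2 := by
            refine le_trans ?_ h10
            gcongr
          exact mul_le_mul_of_nonneg_left h11 (by positivity)
      have hc1 : IntervalIntegrable (fun φ : ℝ => 1 / φ ^ 2) MeasureTheory.volume a (1 - a) := by
        apply ContinuousOn.intervalIntegrable
        intro y hy
        rw [Set.uIcc_of_le (by linarith)] at hy
        have : y ^ 2 ≠ 0 := pow_ne_zero 2 (lt_of_lt_of_le ha0 hy.1).ne'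
        apply ContinuousAt.continuousWithinAt
        fun_prop (disch := assumption)
      have hc2 : IntervalIntegrable (fun φ : ℝ => 1 / (1 - φ) ^ 2) MeasureTheory.volume a (1 - a) := by
        apply ContinuousOn.intervalIntegrable
        intro y hy
        rw [Set.uIcc_of_le (by linarith)] at hy
        have : (1 - y) ^ 2 ≠ 0 := pow_ne_zero 2 (by linarith [hy.2])
        apply ContinuousAt.continuousWithinAt
        fun_prop (disch := assumption)
      have h12 : ∫ φ in a..(1 - a), S φ ≤
          ∫ φ in a..(1 - a), (1 / (N : ℝ)) * (1 / φ ^ 2 + 1 / (1 - φ) ^ 2) :=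
        intervalIntegral.integral_mono_on (by linarith) (hInt _ _) ((hc1.add hc2).const_mul _) h5
      refine h12.trans ?_
      rw [intervalIntegral.integral_const_mul, intervalIntegral.integral_add hc1 hc2,
        integral_inv_sq ha0 (by linarith)]
      have h13 : ∫ φ in a..(1 - a), 1 / (1 - φ) ^ 2 = 1 / a - 1 / (1 - a) := by
        have := intervalIntegral.integral_comp_sub_left (fun y : ℝ => 1 / y ^ 2) (1 : ℝ)
          (a := a) (b := 1 - a)
        rw [this]
        rw [show (1 : ℝ) - (1 - a) = a by ring]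
        exact integral_inv_sq ha0 (by linarith)
      rw [h13]
      have h14 : 0 ≤ 1 / (1 - a) := by
        have : 0 < 1 - a := by linarith
        positivity
      have h15 : 1 / (N : ℝ) * (1 / a + 1 / a) = 1 := by
        rw [ha]
        field_simp
        norm_num
      have h16 : (0 : ℝ) ≤ 1 / N := by positivity
      nlinarith
    have hl := hconst 0 a ha0.le
    have hr := hconst (1 - a) 1 (by linarith)
    have hs1 := intervalIntegral.integral_add_adjacent_intervals (hInt 0 a) (hInt a (1 - a))
    have hs2 := intervalIntegral.integral_add_adjacent_intervals (hInt 0 (1 - a)) (hInt (1 - a) 1)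
    have e1' : (a - 0) * (4 * N) = 8 := by nlinarith
    have e2' : (1 - (1 - a)) * (4 * N) = 8 := by nlinarith
    linarith

end Pool.Agent.H73.AM
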