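import Pool.Agent.H98.AM.Targets

/-!
# MP_29bb0a_mp, module E4: the Stieltjes sum of a light point
-/

open Polynomial

noncomputable section

namespace Pool.Agent.H73.AM

open Pool.Agent.H98.AM

theorem e4 : T_E4 := by
  intro D mu E d T k hmu hD hE hd hk hb
  have hnorm : ∀ e : ℝ, d ≤ ‖(E : ℂ) + d * Complex.I - e‖ ∧ |e - E| ≤ ‖(E : ℂ) + d * Complex.I - e‖ := by
    intro e
    constructor
    · have h := Complex.abs_im_le_norm ((E : ℂ) + d * Complex.I - e)
      have h2 : ((E : ℂ) + d * Complex.I - e).im = d := by simp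
      rw [h2, abs_of_pos hd] at h
      exact h
    · have h := Complex.abs_re_le_norm ((E : ℂ) + d * Complex.I - e)
      have h2 : ((E : ℂ) + d * Complex.I - e).re = E - e := by simp
      rw [h2, abs_sub_comm] at h
      exact h
  have key : ∀ j : ℕ, ∑ e ∈ (rts D).filter (fun e => |e - E| ≤ 2 ^ j * d),
      mu e / ‖(E : ℂ) + d * Complex.I - e‖ ≤ T * (1 + 2 * j) := by
    intro j
    induction j with
    | zero =>
      have h1 : ∑ e ∈ (rts D).filter (fun e => |e - E| ≤ 2 ^ 0 * d),
          mu e / ‖(E : ℂ) + d * Complex.I - e‖ ≤ ∑ e ∈ (rts D).filter (fun e => |e - E| ≤ d),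
          mu e / d := by
        rw [pow_zero, one_mul]
        apply Finset.sum_le_sum
        intro e _
        exact div_le_div_of_nonneg_left (hmu e) hd (hnorm e).1
      have h2 := hb d le_rfl
      rw [← Finset.sum_div] at h1
      have h3 : (∑ e ∈ (rts D).filter (fun e => |e - E| ≤ d), mu e) / d ≤ T := by
        rw [div_le_iff₀ hd]
        exact h2
      simp only [Nat.cast_zero, mul_zero, add_zero, mul_one]
      exact h1.trans h3
    | succ j ih =>
      have hpos : (0 : ℝ) < 2 ^ j * d := by positivity
      have hsplit : (rts D).filter (fun e => |e - E| ≤ 2 ^ (j + 1) * d) =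
          (rts D).filter (fun e => |e - E| ≤ 2 ^ j * d) ∪
          (rts D).filter (fun e => 2 ^ j * d < |e - E| ∧ |e - E| ≤ 2 ^ (j + 1) * d) := by
        ext e
        simp only [Finset.mem_filter, Finset.mem_union]
        constructor
        · rintro ⟨h1, h2⟩
          rcases le_or_gt (|e - E|) (2 ^ j * d) with h | h
          · exact Or.inl ⟨h1, h⟩
          · exact Or.inr ⟨h1, h, h2⟩
        · rintro (⟨h1, h2⟩ | ⟨h1, h2, h3⟩)
          · refine ⟨h1, h2.trans ?_⟩
            rw [pow_succ]
            nlinarith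
          · exact ⟨h1, h3⟩
      have hdisj : Disjoint ((rts D).filter (fun e => |e - E| ≤ 2 ^ j * d))
          ((rts D).filter (fun e => 2 ^ j * d < |e - E| ∧ |e - E| ≤ 2 ^ (j + 1) * d)) := by
        rw [Finset.disjoint_left]
        intro e h1 h2
        rw [Finset.mem_filter] at h1 h2
        exact absurd h1.2 (not_le.mpr h2.2.1)
      rw [hsplit, Finset.sum_union hdisj]
      have h1 : ∑ e ∈ (rts D).filter (fun e => 2 ^ j * d < |e - E| ∧ |e - E| ≤ 2 ^ (j + 1) * d),
          mu e / ‖(E : ℂ) + d * Complex.I - e‖ ≤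
          ∑ e ∈ (rts D).filter (fun e => |e - E| ≤ 2 ^ (j + 1) * d), mu e / (2 ^ j * d) := by
        refine (Finset.sum_le_sum (g := fun e => mu e / (2 ^ j * d)) ?_).trans
          (Finset.sum_le_sum_of_subset_of_nonneg ?_ ?_)
        · intro e he
          rw [Finset.mem_filter] at he
          exact div_le_div_of_nonneg_left (hmu e) hpos (he.2.1.le.trans (hnorm e).2)
        · intro e he
          rw [Finset.mem_filter] at he ⊢
          exact ⟨he.1, he.2.2⟩
        · intro e _ _
          exact div_nonneg (hmu e) hpos.le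
      have hle : d ≤ 2 ^ (j + 1) * d := by
        have : (1 : ℝ) ≤ 2 ^ (j + 1) := one_le_pow₀ (by norm_num)
        nlinarith
      have h2 := hb (2 ^ (j + 1) * d) hle
      rw [← Finset.sum_div] at h1
      have h3 : (∑ e ∈ (rts D).filter (fun e => |e - E| ≤ 2 ^ (j + 1) * d), mu e) / (2 ^ j * d)
          ≤ 2 * T := by
        rw [div_le_iff₀ hpos]
        refine (le_of_eq ?_).trans (h2.trans (le_of_eq ?_))
        · rfl
        · rw [pow_succ]; ring
      push_cast
      linarith
  have hall : (rts D).filter (fun e => |e - E| ≤ 2 ^ k * d) = rts D := by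
    apply Finset.filter_true_of_mem
    intro e he
    have h1 := abs_le.mp (hD e he)
    have h2 := abs_le.mp hE
    rw [abs_le]
    constructor <;> linarith
  have := key k
  rw [hall] at this
  exact this

end Pool.Agent.H73.AM
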