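import Pool.Agent.H98.AM.Targets

/-!
# MP_29bb0a_mp, module O1: approximate eigenfunctions
-/

open Polynomial
open scoped ComplexConjugate

noncomputable section

namespace Pool.Agent.H73.AM

open Pool.Agent.H98.AM

theorem inner_shift (k : ℤ) (ψ φ : L2Z) :
    inner ℂ (shift k ψ) φ = inner ℂ ψ (shift (-k) φ) := by
  rw [lp.inner_eq_tsum, lp.inner_eq_tsum]
  have h := (Equiv.addRight k).tsum_eq (fun n : ℤ => inner ℂ (ψ n) ((shift (-k) φ) n))
  rw [← h]
  congr 1
  funext n
  change inner ℂ (ψ (n + k)) (φ n) = inner ℂ (ψ (n + k)) (φ (n + k + -k))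
  rw [add_neg_cancel_right]

theorem inner_mul (lam α θ : ℝ) (ψ φ : L2Z) :
    inner ℂ (mulOp lam α θ ψ) φ = inner ℂ ψ (mulOp lam α θ φ) := by
  rw [lp.inner_eq_tsum, lp.inner_eq_tsum]
  congr 1
  funext n
  change inner ℂ ((potential lam α θ n : ℂ) * ψ n) (φ n)
    = inner ℂ (ψ n) ((potential lam α θ n : ℂ) * φ n)
  simp only [RCLike.inner_apply, map_mul, Complex.conj_ofReal]
  ring

theorem inner_amo (lam α θ : ℝ) (ψ φ : L2Z) :
    inner ℂ (amoOp lam α θ ψ) φ = inner ℂ ψ (amoOp lam α θ φ) := by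
  unfold amoOp
  simp only [add_apply, inner_add_left, inner_add_right, inner_shift, inner_mul,
    neg_neg]
  ring

theorem o1 : T_O1 := by
  intro lam α θ E hE ε hε
  by_contra hcon
  push Not at hcon
  apply hE
  set T : L2Z →L[ℂ] L2Z := algebraMap ℂ (L2Z →L[ℂ] L2Z) (E : ℂ) - amoOp lam α θ with hT
  have hTa : ∀ ψ, T ψ = (E : ℂ) • ψ - amoOp lam α θ ψ := by
    intro ψ
    rw [hT, Algebra.algebraMap_eq_smul_one]
    rfl
  have hbelow : ∀ ψ : L2Z, ε * ‖ψ‖ ≤ ‖T ψ‖ := by
    intro ψ
    by_cases h0 : ψ = 0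
    · subst h0
      simp
    · have := hcon ψ h0
      rw [hTa, norm_sub_rev]
      exact this.le
  have hanti : AntilipschitzWith (Real.toNNReal (1 / ε)) T := by
    apply ContinuousLinearMap.antilipschitz_of_bound
    intro ψ
    rw [Real.coe_toNNReal _ (by positivity)]
    have := hbelow ψ
    rw [one_div, inv_mul_eq_div, le_div_iff₀ hε]
    linarith
  have hsym : ∀ ψ φ, inner ℂ (T ψ) φ = inner ℂ ψ (T φ) := by
    intro ψ φ
    rw [hTa, hTa, inner_sub_left, inner_sub_right, inner_amo, inner_smul_left, inner_smul_right,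
      Complex.conj_ofReal]
  have hdense : (LinearMap.range (T : L2Z →ₗ[ℂ] L2Z)).topologicalClosure = ⊤ := by
    rw [Submodule.topologicalClosure_eq_top_iff, Submodule.eq_bot_iff]
    intro φ hφ
    rw [Submodule.mem_orthogonal] at hφ
    have h2 : T φ = 0 := by
      have h3 := hφ (T (T φ)) ⟨T φ, rfl⟩
      rw [hsym] at h3
      exact inner_self_eq_zero.mp h3
    have h4 := hbelow φ
    rw [h2, norm_zero] at h4
    have h5 := norm_nonneg φ
    have h6 : ‖φ‖ = 0 := by nlinarith
    exact norm_eq_zero.mp h6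
  have hbij : Function.Bijective T := by
    rw [ContinuousLinearMap.bijective_iff_dense_range_and_antilipschitz]
    exact ⟨hdense, _, hanti⟩
  change IsUnit T
  exact (ContinuousLinearMap.isUnit_iff_bijective).mpr hbij

end Pool.Agent.H73.AM
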