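import Pool.Agent.H73.AM.O1

/-!
# MP_29bb0a_mp, module O2: localisation and periodisation
-/

open Polynomial
open scoped ComplexConjugate

noncomputable section

namespace Pool.Agent.H73.AM

open Pool.Agent.H98.AM

/-! ## rings -/

/-- ring Schroedinger operator -/
def Tv {N : ℕ} [NeZero N] (V : ZMod N → ℝ) : Rg N →ₗ[ℂ] Rg N where
  toFun f := WithLp.toLp 2 fun n => f (n - 1) + f (n + 1) + (V n : ℂ) * f n
  map_add' f g := by
    ext n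
    simp
    ring
  map_smul' c f := by
    ext n
    simp
    ring

theorem Tv_apply {N : ℕ} [NeZero N] (V : ZMod N → ℝ) (f : Rg N) (n : ZMod N) :
    Tv V f n = f (n - 1) + f (n + 1) + (V n : ℂ) * f n := rfl

theorem Tv_sym {N : ℕ} [NeZero N] (V : ZMod N → ℝ) : (Tv V).IsSymmetric := by
  intro f g
  rw [PiLp.inner_apply, PiLp.inner_apply]
  simp only [Tv_apply, RCLike.inner_apply, map_add, map_mul, Complex.conj_ofReal, mul_add, add_mul,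
    Finset.sum_add_distrib]
  have h1 : ∑ x, g x * (starRingEnd ℂ) (f (x - 1)) = ∑ x, g (x + 1) * (starRingEnd ℂ) (f x) := by
    rw [← Equiv.sum_comp (Equiv.addRight (1 : ZMod N)) (fun x => g x * (starRingEnd ℂ) (f (x - 1)))]
    refine Finset.sum_congr rfl fun x _ => ?_
    simp
  have h2 : ∑ x, g x * (starRingEnd ℂ) (f (x + 1)) = ∑ x, g (x - 1) * (starRingEnd ℂ) (f x) := by
    rw [← Equiv.sum_comp (Equiv.subRight (1 : ZMod N)) (fun x => g x * (starRingEnd ℂ) (f (x + 1)))]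
    refine Finset.sum_congr rfl fun x _ => ?_
    simp
  rw [h1, h2]
  have h3 : ∑ x, g x * ((V x : ℂ) * (starRingEnd ℂ) (f x)) = ∑ x, (V x : ℂ) * g x *
      (starRingEnd ℂ) (f x) := by
    refine Finset.sum_congr rfl fun x _ => ?_
    ring
  rw [h3]
  ring

theorem exists_eig {N : ℕ} [NeZero N] (V : ZMod N → ℝ) (E κ : ℝ) (hκ : 0 ≤ κ) (g : Rg N)
    (hg : g ≠ 0) (h : ‖Tv V g - (E : ℂ) • g‖ ≤ κ * ‖g‖) :
    ∃ (E' : ℝ) (f : Rg N), f ≠ 0 ∧ Tv V f = (E' : ℂ) • f ∧ |E - E'| ≤ κ := by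
  by_contra hcon
  push Not at hcon
  have hs := Tv_sym V
  set b := hs.eigenvectorBasis rfl with hb
  have hbe : ∀ i, Tv V (b i) = (hs.eigenvalues rfl i : ℂ) • b i := fun i =>
    hs.apply_eigenvectorBasis rfl i
  have hfar : ∀ i, κ < |E - hs.eigenvalues rfl i| := by
    intro i
    apply hcon _ (b i) _ (hbe i)
    intro h0
    have := b.orthonormal.1 i
    rw [h0, norm_zero] at this
    norm_num at this
  have h1 : ∀ i, inner ℂ (b i) (Tv V g - (E : ℂ) • g) =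
      ((hs.eigenvalues rfl i - E : ℝ) : ℂ) * inner ℂ (b i) g := by
    intro i
    rw [inner_sub_right, ← hs (b i) g, hbe, inner_smul_left, inner_smul_right, Complex.conj_ofReal]
    push_cast
    ring
  have h2 := b.sum_sq_norm_inner_right (Tv V g - (E : ℂ) • g)
  have h3 := b.sum_sq_norm_inner_right g
  have hgpos : 0 < ‖g‖ := norm_pos_iff.mpr hg
  have h4 : ∃ i, inner ℂ (b i) g ≠ 0 := by
    by_contra hno
    push Not at hno
    simp only [hno, norm_zero, ne_eq, OfNat.ofNat_ne_zero, not_false_eq_true, zero_pow,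
      Finset.sum_const_zero] at h3
    nlinarith
  obtain ⟨i0, hi0⟩ := h4
  have h5 : κ ^ 2 * ‖g‖ ^ 2 < ‖Tv V g - (E : ℂ) • g‖ ^ 2 := by
    rw [← h2, ← h3, Finset.mul_sum]
    apply Finset.sum_lt_sum
    · intro i _
      rw [h1, norm_mul, mul_pow, Complex.norm_real, Real.norm_eq_abs]
      have := hfar i
      rw [abs_sub_comm] at this
      gcongr
    · refine ⟨i0, Finset.mem_univ _, ?_⟩
      rw [h1, norm_mul, mul_pow, Complex.norm_real, Real.norm_eq_abs]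
      have := hfar i0
      rw [abs_sub_comm] at this
      have h6 : 0 < ‖inner ℂ (b i0) g‖ ^ 2 := by
        have := norm_pos_iff.mpr hi0
        positivity
      gcongr
  have h7 : ‖Tv V g - (E : ℂ) • g‖ ^ 2 ≤ (κ * ‖g‖) ^ 2 := by gcongr
  rw [mul_pow] at h7
  linarith

/-! ## windows -/

/-- the hat function -/
def hat (l : ℕ) (j : ℤ) : ℝ := max 0 (1 - |(j : ℝ)| / l)

theorem hat_zero {l : ℕ} {j : ℤ} (hl : 1 ≤ l) (h : (l : ℤ) ≤ |j|) : hat l j = 0 := by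
  unfold hat
  apply max_eq_left
  have h0 : (0 : ℝ) < l := by exact_mod_cast hl
  have : (l : ℝ) ≤ |(j : ℝ)| := by exact_mod_cast h
  rw [sub_nonpos, one_le_div h0]
  exact this

theorem hat_lip (l : ℕ) (hl : 1 ≤ l) (j k : ℤ) (h : |j - k| ≤ 1) : |hat l j - hat l k| ≤ 1 / l := by
  unfold hat
  have h0 : (0 : ℝ) < l := by exact_mod_cast hl
  rw [max_comm 0, max_comm 0]
  refine (abs_max_sub_max_le_abs _ _ _).trans ?_
  have h1 : (1 - |(j : ℝ)| / l) - (1 - |(k : ℝ)| / l) = (|(k : ℝ)| - |(j : ℝ)|) / l := by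
    field_simp
    ring
  rw [h1, abs_div, abs_of_pos h0]
  gcongr
  refine (abs_abs_sub_abs_le _ _).trans ?_
  rw [abs_sub_comm]
  exact_mod_cast h

theorem hat_nonneg (l : ℕ) (j : ℤ) : 0 ≤ hat l j := le_max_left _ _

theorem hat_le_one (l : ℕ) (j : ℤ) : hat l j ≤ 1 := by
  unfold hat
  apply max_le (by norm_num)
  have : 0 ≤ |(j : ℝ)| / l := by positivity
  linarith

theorem hat_sum (l : ℕ) (hl : 1 ≤ l) :
    (l : ℝ) / 4 ≤ ∑ j ∈ Finset.Icc (-(l : ℤ)) l, hat l j ^ 2 := by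
  have h0 : (0 : ℝ) < l := by exact_mod_cast hl
  have h1 : ∑ j ∈ Finset.Icc (-((l / 2 : ℕ) : ℤ)) ((l / 2 : ℕ) : ℤ), (1 / 4 : ℝ) ≤
      ∑ j ∈ Finset.Icc (-(l : ℤ)) l, hat l j ^ 2 := by
    refine (Finset.sum_le_sum (g := fun j => hat l j ^ 2) ?_).trans
      (Finset.sum_le_sum_of_subset_of_nonneg ?_ ?_)
    · intro j hj
      rw [Finset.mem_Icc] at hj
      have hj2 : |j| * 2 ≤ l := by
        have : |j| ≤ ((l / 2 : ℕ) : ℤ) := abs_le.mpr hj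
        omega
      have hj3 : |(j : ℝ)| * 2 ≤ l := by exact_mod_cast hj2
      have h2 : (1 / 2 : ℝ) ≤ hat l j := by
        unfold hat
        apply le_max_of_le_right
        have : |(j : ℝ)| / l ≤ 1 / 2 := by
          rw [div_le_iff₀ h0]
          linarith
        linarith
      nlinarith
    · intro j hj
      rw [Finset.mem_Icc] at hj ⊢
      constructor <;> omega
    · intro j _ _
      positivity
  rw [Finset.sum_const, Int.card_Icc, nsmul_eq_mul] at h1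
  have h3 : (l : ℝ) ≤ ((((l / 2 : ℕ) : ℤ) + 1 - -((l / 2 : ℕ) : ℤ)).toNat : ℝ) := by
    have : l ≤ (((l / 2 : ℕ) : ℤ) + 1 - -((l / 2 : ℕ) : ℤ)).toNat := by omega
    exact_mod_cast this
  linarith

theorem hasSum_shift (χ : L2Z) (j : ℤ) : HasSum (fun a : ℤ => ‖χ (a + j)‖ ^ 2) (‖χ‖ ^ 2) := by
  have h := lp.hasSum_norm (p := 2) (by norm_num) χ
  have h2 : HasSum (fun a : ℤ => ‖χ a‖ ^ 2) (‖χ‖ ^ 2) := by
    have e : ((2 : ENNReal).toReal) = ((2 : ℕ) : ℝ) := by norm_num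
    simp only [e, Real.rpow_natCast] at h
    exact h
  exact (Equiv.addRight j).hasSum_iff.mpr h2

/-- the localised function: some window is good -/
theorem window (ψ φ : L2Z) (hψ : ψ ≠ 0) (ε : ℝ) (hφ : ‖φ‖ ≤ ε * ‖ψ‖) (hε : 0 ≤ ε) (l : ℕ)
    (hl : 1 ≤ l) :
    ∃ a : ℤ, 0 < ∑ j ∈ Finset.Icc (-(l : ℤ)) l, ‖(hat l j : ℂ) * ψ (a + j)‖ ^ 2 ∧
      ∑ j ∈ Finset.Icc (-(l : ℤ)) l, ‖(hat l j : ℂ) * φ (a + j)
        + ((hat l (j - 1) - hat l j : ℝ) : ℂ) * ψ (a + (j - 1))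
        + ((hat l (j + 1) - hat l j : ℝ) : ℂ) * ψ (a + (j + 1))‖ ^ 2 ≤
      (3 * ε ^ 2 + 96 / l ^ 2) *
        ∑ j ∈ Finset.Icc (-(l : ℤ)) l, ‖(hat l j : ℂ) * ψ (a + j)‖ ^ 2 := by
  have h0 : (0 : ℝ) < l := by exact_mod_cast hl
  set J := Finset.Icc (-(l : ℤ)) l with hJ
  set S : ℝ := ∑ j ∈ J, hat l j ^ 2 with hS
  have hSl : (l : ℝ) / 4 ≤ S := hat_sum l hl
  have hψ0 : 0 < ‖ψ‖ := norm_pos_iff.mpr hψ
  have hA : HasSum (fun a : ℤ => ∑ j ∈ J, hat l j ^ 2 * ‖ψ (a + j)‖ ^ 2) (S * ‖ψ‖ ^ 2) := by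
    rw [hS, Finset.sum_mul]
    exact hasSum_sum fun j _ => (hasSum_shift ψ j).mul_left _
  have hB : HasSum (fun a : ℤ => ∑ j ∈ J, (3 * hat l j ^ 2 * ‖φ (a + j)‖ ^ 2 +
      3 * (1 / l) ^ 2 * ‖ψ (a + (j - 1))‖ ^ 2 + 3 * (1 / l) ^ 2 * ‖ψ (a + (j + 1))‖ ^ 2))
      (∑ j ∈ J, (3 * hat l j ^ 2 * ‖φ‖ ^ 2 +
      3 * (1 / l) ^ 2 * ‖ψ‖ ^ 2 + 3 * (1 / l) ^ 2 * ‖ψ‖ ^ 2)) :=
    hasSum_sum fun j _ => (((hasSum_shift φ j).mul_left _).add ((hasSum_shift ψ (j - 1)).mul_left _)).add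
      ((hasSum_shift ψ (j + 1)).mul_left _)
  have hBtot : (∑ j ∈ J, (3 * hat l j ^ 2 * ‖φ‖ ^ 2 +
      3 * (1 / l) ^ 2 * ‖ψ‖ ^ 2 + 3 * (1 / l) ^ 2 * ‖ψ‖ ^ 2)) ≤
      (3 * ε ^ 2 + 96 / l ^ 2) * (S * ‖ψ‖ ^ 2) := by
    have e1 : (∑ j ∈ J, (3 * hat l j ^ 2 * ‖φ‖ ^ 2 +
      3 * (1 / l) ^ 2 * ‖ψ‖ ^ 2 + 3 * (1 / l) ^ 2 * ‖ψ‖ ^ 2)) =
      3 * S * ‖φ‖ ^ 2 + (2 * l + 1) * (6 * (1 / l) ^ 2 * ‖ψ‖ ^ 2) := by
      have hcard : (J.card : ℝ) = 2 * l + 1 := by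
        rw [hJ, Int.card_Icc]
        have : ((l : ℤ) + 1 - -(l : ℤ)).toNat = 2 * l + 1 := by omega
        rw [this]
        push_cast
        ring
      have e2 : ∀ j : ℤ, (3 * hat l j ^ 2 * ‖φ‖ ^ 2 +
        3 * (1 / l) ^ 2 * ‖ψ‖ ^ 2 + 3 * (1 / l) ^ 2 * ‖ψ‖ ^ 2) =
        hat l j ^ 2 * (3 * ‖φ‖ ^ 2) + 6 * (1 / l) ^ 2 * ‖ψ‖ ^ 2 := fun j => by ring
      simp_rw [e2]
      rw [Finset.sum_add_distrib, Finset.sum_const, nsmul_eq_mul, hcard, ← Finset.sum_mul, ← hS]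
      ring
    rw [e1]
    have h2 : ‖φ‖ ^ 2 ≤ ε ^ 2 * ‖ψ‖ ^ 2 := by
      rw [← mul_pow]
      gcongr
    have h3 : (2 * l + 1 : ℝ) * (6 * (1 / l) ^ 2) ≤ 96 / l ^ 2 * S := by
      have h4 : (2 * l + 1 : ℝ) ≤ 3 * l := by
        have : (1 : ℝ) ≤ l := by exact_mod_cast hl
        linarith
      calc (2 * l + 1 : ℝ) * (6 * (1 / l) ^ 2) ≤ (3 * l) * (6 * (1 / l) ^ 2) := by gcongr
        _ = 18 / (l : ℝ) ^ 2 * l := by field_simp; ring
        _ ≤ 24 / (l : ℝ) ^ 2 * l := by gcongr; norm_num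
        _ = 96 / (l : ℝ) ^ 2 * (l / 4) := by ring
        _ ≤ 96 / (l : ℝ) ^ 2 * S := by gcongr
    have hS0 : 0 < S := lt_of_lt_of_le (by positivity) hSl
    have h5 : 3 * S * ‖φ‖ ^ 2 ≤ 3 * S * (ε ^ 2 * ‖ψ‖ ^ 2) := by gcongr
    have h6 : (2 * l + 1 : ℝ) * (6 * (1 / l) ^ 2) * ‖ψ‖ ^ 2 ≤ 96 / l ^ 2 * S * ‖ψ‖ ^ 2 := by gcongr
    nlinarith
  have hS0 : 0 < S := lt_of_lt_of_le (by positivity) hSl
  set κ : ℝ := 3 * ε ^ 2 + 96 / l ^ 2 with hκ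
  have hex : ∃ a : ℤ, 0 < ∑ j ∈ J, hat l j ^ 2 * ‖ψ (a + j)‖ ^ 2 ∧
      ∑ j ∈ J, (3 * hat l j ^ 2 * ‖φ (a + j)‖ ^ 2 +
      3 * (1 / l) ^ 2 * ‖ψ (a + (j - 1))‖ ^ 2 + 3 * (1 / l) ^ 2 * ‖ψ (a + (j + 1))‖ ^ 2) ≤
      κ * ∑ j ∈ J, hat l j ^ 2 * ‖ψ (a + j)‖ ^ 2 := by
    by_contra hcon
    push Not at hcon
    have hAnn : ∀ a : ℤ, 0 ≤ ∑ j ∈ J, hat l j ^ 2 * ‖ψ (a + j)‖ ^ 2 := fun a =>
      Finset.sum_nonneg fun j _ => by positivity
    have hpos : ∃ a : ℤ, 0 < ∑ j ∈ J, hat l j ^ 2 * ‖ψ (a + j)‖ ^ 2 := by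
      by_contra hno
      push Not at hno
      have : (fun a : ℤ => ∑ j ∈ J, hat l j ^ 2 * ‖ψ (a + j)‖ ^ 2) = fun _ => 0 :=
        funext fun a => le_antisymm (hno a) (hAnn a)
      rw [this] at hA
      have h1 := hA.unique hasSum_zero
      have : 0 < S * ‖ψ‖ ^ 2 := by positivity
      linarith
    obtain ⟨a0, ha0⟩ := hpos
    have hlt : κ * (S * ‖ψ‖ ^ 2) < _ := hasSum_lt (i := a0) (fun a => ?_) ?_ (hA.mul_left κ) hB
    · linarith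
    · rcases (hAnn a).eq_or_lt with h | h
      · change κ * ∑ j ∈ J, hat l j ^ 2 * ‖ψ (a + j)‖ ^ 2 ≤ _
        rw [← h, mul_zero]
        exact Finset.sum_nonneg fun j _ => by positivity
      · exact (hcon a h).le
    · exact hcon a0 ha0
  obtain ⟨a, ha1, ha2⟩ := hex
  have hAe : ∑ j ∈ J, ‖(hat l j : ℂ) * ψ (a + j)‖ ^ 2 = ∑ j ∈ J, hat l j ^ 2 * ‖ψ (a + j)‖ ^ 2 := by
    refine Finset.sum_congr rfl fun j _ => ?_
    rw [norm_mul, mul_pow, Complex.norm_real, Real.norm_eq_abs, sq_abs]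
  refine ⟨a, by rw [hAe]; exact ha1, ?_⟩
  rw [hAe]
  refine le_trans (Finset.sum_le_sum fun j _ => ?_) ha2
  have h3 : ∀ x y z : ℂ, ‖x + y + z‖ ^ 2 ≤ 3 * ‖x‖ ^ 2 + 3 * ‖y‖ ^ 2 + 3 * ‖z‖ ^ 2 := by
    intro x y z
    have h4 : ‖x + y + z‖ ≤ ‖x‖ + ‖y‖ + ‖z‖ := norm_add₃_le
    have h5 : ‖x + y + z‖ ^ 2 ≤ (‖x‖ + ‖y‖ + ‖z‖) ^ 2 := by gcongr
    nlinarith [sq_nonneg (‖x‖ - ‖y‖), sq_nonneg (‖y‖ - ‖z‖), sq_nonneg (‖x‖ - ‖z‖)]
  refine (h3 _ _ _).trans ?_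
  have hn : ∀ (t : ℝ) (w : ℂ), ‖(t : ℂ) * w‖ ^ 2 = t ^ 2 * ‖w‖ ^ 2 := by
    intro t w
    rw [norm_mul, mul_pow, Complex.norm_real, Real.norm_eq_abs, sq_abs]
  rw [hn, hn, hn]
  have h6 : (hat l (j - 1) - hat l j) ^ 2 ≤ (1 / l) ^ 2 := by
    rw [← sq_abs]
    have := hat_lip l hl (j - 1) j (by simp)
    gcongr
  have h7 : (hat l (j + 1) - hat l j) ^ 2 ≤ (1 / l) ^ 2 := by
    rw [← sq_abs]
    have := hat_lip l hl (j + 1) j (by simp)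
    gcongr
  have h8 : (hat l (j - 1) - hat l j) ^ 2 * ‖ψ (a + (j - 1))‖ ^ 2 ≤
    (1 / l) ^ 2 * ‖ψ (a + (j - 1))‖ ^ 2 := by gcongr
  have h9 : (hat l (j + 1) - hat l j) ^ 2 * ‖ψ (a + (j + 1))‖ ^ 2 ≤
    (1 / l) ^ 2 * ‖ψ (a + (j + 1))‖ ^ 2 := by gcongr
  linarith

/-! ## transplantation -/

section ring

variable {N l : ℕ} [NeZero N]

theorem val_add_one (n : ZMod N) : ((n + 1).val : ℤ) = ((n.val : ℤ) + 1) % N := by
  have : n + 1 = (((n.val : ℤ) + 1 : ℤ) : ZMod N) := by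
    push_cast
    rw [ZMod.natCast_zmod_val]
  rw [this, ZMod.val_intCast]

theorem val_sub_one (n : ZMod N) : ((n - 1).val : ℤ) = ((n.val : ℤ) - 1) % N := by
  have : n - 1 = (((n.val : ℤ) - 1 : ℤ) : ZMod N) := by
    push_cast
    rw [ZMod.natCast_zmod_val]
  rw [this, ZMod.val_intCast]

theorem move_add (hN : 2 * l + 3 ≤ N) (G : ℤ → ℂ) (hG : ∀ j : ℤ, (l : ℤ) ≤ |j| → G j = 0)
    (n : ZMod N) : G (((n + 1).val : ℤ) - (l + 1)) = G ((n.val : ℤ) - (l + 1) + 1) := by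
  rw [val_add_one]
  have h1 : n.val < N := n.val_lt
  rcases lt_or_ge (n.val + 1) N with h | h
  · rw [Int.emod_eq_of_lt (by omega) (by omega)]
    congr 1
    ring
  · have h2 : ((n.val : ℤ) + 1) = N := by omega
    rw [h2, Int.emod_self, hG, hG]
    · rw [abs_of_nonneg] <;> omega
    · rw [abs_of_nonpos] <;> omega

theorem move_sub (hN : 2 * l + 3 ≤ N) (G : ℤ → ℂ) (hG : ∀ j : ℤ, (l : ℤ) ≤ |j| → G j = 0)
    (n : ZMod N) : G (((n - 1).val : ℤ) - (l + 1)) = G ((n.val : ℤ) - (l + 1) - 1) := by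
  rw [val_sub_one]
  have h1 : n.val < N := n.val_lt
  rcases Nat.eq_zero_or_pos n.val with h | h
  · have h2 : ((n.val : ℤ) - 1) % N = N - 1 := by
      rw [h]
      rw [show ((0 : ℕ) : ℤ) - 1 = -1 by norm_num, ← Int.add_emod_right,
        Int.emod_eq_of_lt (by omega) (by omega)]
      ring
    rw [h2, hG, hG]
    · rw [h, abs_of_nonpos] <;> omega
    · rw [abs_of_nonneg] <;> omega
  · rw [Int.emod_eq_of_lt (by omega) (by omega)]
    congr 1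
    ring

theorem sum_move (hN : 2 * l + 3 ≤ N) (F : ℤ → ℝ) (hF : ∀ j : ℤ, (l : ℤ) < |j| → F j = 0) :
    ∑ n : ZMod N, F ((n.val : ℤ) - (l + 1)) = ∑ j ∈ Finset.Icc (-(l : ℤ)) l, F j := by
  symm
  rw [← Finset.sum_filter_ne_zero (s := Finset.univ)]
  rw [← Finset.sum_filter_ne_zero (s := Finset.Icc (-(l : ℤ)) l)]
  have hval : ∀ j ∈ Finset.Icc (-(l : ℤ)) l, ((((j + (l + 1) : ℤ) : ZMod N).val : ℤ)) = j + (l + 1) := by
    intro j hj
    rw [Finset.mem_Icc] at hj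
    rw [ZMod.val_intCast, Int.emod_eq_of_lt (by omega) (by omega)]
  refine Finset.sum_nbij' (fun j => ((j + (l + 1) : ℤ) : ZMod N))
    (fun n => (n.val : ℤ) - (l + 1)) ?_ ?_ ?_ ?_ ?_
  · intro j hj
    rw [Finset.mem_filter] at hj ⊢
    refine ⟨Finset.mem_univ _, ?_⟩
    rw [hval j hj.1, add_sub_cancel_right]
    exact hj.2
  · intro n hn
    rw [Finset.mem_filter] at hn ⊢
    refine ⟨?_, hn.2⟩
    have h1 : |(n.val : ℤ) - (l + 1)| ≤ l := by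
      by_contra h
      exact hn.2 (hF _ (by omega))
    rw [Finset.mem_Icc]
    exact abs_le.mp h1
  · intro j hj
    rw [Finset.mem_filter] at hj
    rw [hval j hj.1, add_sub_cancel_right]
  · intro n _
    rw [sub_add_cancel]
    push_cast
    exact ZMod.natCast_zmod_val n
  · intro j hj
    rw [Finset.mem_filter] at hj
    rw [hval j hj.1, add_sub_cancel_right]

end ring

theorem o2 : T_O2 := by
  intro C0 hC0
  refine ⟨60 * C0, by linarith, ?_⟩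
  intro α p q _ E hα hE
  obtain ⟨θ0, hθ0⟩ := hE
  have hq : (1 : ℝ) ≤ q := by
    have : 1 ≤ q := Nat.one_le_iff_ne_zero.mpr (NeZero.ne q)
    exact_mod_cast this
  set δ : ℝ := (q : ℝ) ^ (-(3 / 2) : ℝ) with hδ
  have hδ0 : 0 < δ := by positivity
  obtain ⟨ψ, hψ, hψE⟩ := o1 1 α θ0 E hθ0 δ hδ0
  set l : ℕ := ⌈(q : ℝ) ^ (3 / 2 : ℝ)⌉₊ with hl
  have hq32 : (1 : ℝ) ≤ (q : ℝ) ^ (3 / 2 : ℝ) := Real.one_le_rpow hq (by norm_num)
  have hl1 : 1 ≤ l := Nat.one_le_ceil_iff.mpr (by linarith)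
  have hl2 : (q : ℝ) ^ (3 / 2 : ℝ) ≤ l := Nat.le_ceil _
  have hl3 : (l : ℝ) ≤ 2 * (q : ℝ) ^ (3 / 2 : ℝ) := by
    have := Nat.ceil_lt_add_one (a := (q : ℝ) ^ (3 / 2 : ℝ)) (by positivity)
    rw [← hl] at this
    linarith
  have hδq : δ * (q : ℝ) ^ (3 / 2 : ℝ) = 1 := by
    rw [hδ, ← Real.rpow_add (by linarith)]
    norm_num
  have hl0 : (0 : ℝ) < l := by exact_mod_cast hl1
  have hinv : 1 / (l : ℝ) ≤ δ := by
    rw [div_le_iff₀ hl0]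
    nlinarith
  set φ : L2Z := amoOp 1 α θ0 ψ - (E : ℂ) • ψ with hφ
  obtain ⟨a, ha1, ha2⟩ := window ψ φ hψ δ hψE hδ0.le l hl1
  set A : ℝ := ∑ j ∈ Finset.Icc (-(l : ℤ)) l, ‖(hat l j : ℂ) * ψ (a + j)‖ ^ 2 with hA
  have hκ : 3 * δ ^ 2 + 96 / (l : ℝ) ^ 2 ≤ 99 * δ ^ 2 := by
    have : 96 / (l : ℝ) ^ 2 = 96 * (1 / (l : ℝ)) ^ 2 := by field_simp
    rw [this]
    have : (1 / (l : ℝ)) ^ 2 ≤ δ ^ 2 := by gcongr
    linarith
  set M : ℕ := 2 * l + 3 with hM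
  have hMq : 2 * l + 3 ≤ M * q := by
    have : 1 ≤ q := Nat.one_le_iff_ne_zero.mpr (NeZero.ne q)
    nlinarith
  haveI hMne : NeZero M := ⟨by omega⟩
  haveI : NeZero (M * q) := ⟨by
    have : 1 ≤ q := Nat.one_le_iff_ne_zero.mpr (NeZero.ne q)
    positivity⟩
  set θ : ℝ := θ0 + a * α - (l + 1) * (p / q) with hθ
  set V : ZMod (M * q) → ℝ := fun n => 2 * Real.cos (2 * Real.pi * (θ + n.val * (p / q))) with hV
  set G : ℤ → ℂ := fun j => (hat l j : ℂ) * ψ (a + j) with hG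
  have hG0 : ∀ j : ℤ, (l : ℤ) ≤ |j| → G j = 0 := by
    intro j hj
    rw [hG]
    simp only
    rw [hat_zero hl1 hj]
    simp
  set g : Rg (M * q) := WithLp.toLp 2 fun n => G ((n.val : ℤ) - (l + 1)) with hg
  have hgn : ‖g‖ ^ 2 = A := by
    rw [EuclideanSpace.norm_sq_eq]
    exact sum_move hMq (fun j => ‖G j‖ ^ 2) (fun j hj => by rw [hG0 j hj.le]; simp)
  have hg0 : g ≠ 0 := by
    intro h
    rw [h] at hgn
    simp at hgn
    linarith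
  set v' : ℤ → ℝ := fun j => 2 * Real.cos (2 * Real.pi * (θ + ((j + (l + 1) : ℤ) : ℝ) * (p / q)))
    with hv'
  have hTg : ∀ n : ZMod (M * q), (Tv V g - (E : ℂ) • g) n =
      (fun j : ℤ => G (j - 1) + G (j + 1) + ((v' j : ℂ) - E) * G j) ((n.val : ℤ) - (l + 1)) := by
    intro n
    have h1 : (Tv V g - (E : ℂ) • g) n = g (n - 1) + g (n + 1) + (V n : ℂ) * g n - E * g n := rfl
    have h2 : g (n - 1) = G ((n.val : ℤ) - (l + 1) - 1) := move_sub hMq G hG0 n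
    have h3 : g (n + 1) = G ((n.val : ℤ) - (l + 1) + 1) := move_add hMq G hG0 n
    have h4 : g n = G ((n.val : ℤ) - (l + 1)) := rfl
    have h5 : v' ((n.val : ℤ) - (l + 1)) = V n := by
      rw [hv', hV]
      simp only
      rw [sub_add_cancel]
      push_cast
      rfl
    rw [h1, h2, h3, h4]
    simp only
    rw [h5]
    ring
  have hres : ‖Tv V g - (E : ℂ) • g‖ ^ 2 =
      ∑ j ∈ Finset.Icc (-(l : ℤ)) l, ‖G (j - 1) + G (j + 1) + ((v' j : ℂ) - E) * G j‖ ^ 2 := by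
    rw [EuclideanSpace.norm_sq_eq]
    simp_rw [hTg]
    apply sum_move hMq (fun j : ℤ => ‖G (j - 1) + G (j + 1) + ((v' j : ℂ) - E) * G j‖ ^ 2)
    intro j hj
    rw [hG0 (j - 1), hG0 (j + 1), hG0 j hj.le]
    · simp
    · have := abs_sub_abs_le_abs_sub j (j + 1)
      have h2 : |j - (j + 1)| = 1 := by
        rw [show j - (j + 1) = -1 by ring]
        rfl
      omega
    · have := abs_sub_abs_le_abs_sub j (j - 1)
      have h2 : |j - (j - 1)| = 1 := by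
        rw [show j - (j - 1) = 1 by ring]
        rfl
      omega
  have hterm : ∀ j ∈ Finset.Icc (-(l : ℤ)) l,
      ‖G (j - 1) + G (j + 1) + ((v' j : ℂ) - E) * G j‖ ^ 2 ≤
      2 * ‖(hat l j : ℂ) * φ (a + j)
        + ((hat l (j - 1) - hat l j : ℝ) : ℂ) * ψ (a + (j - 1))
        + ((hat l (j + 1) - hat l j : ℝ) : ℂ) * ψ (a + (j + 1))‖ ^ 2 +
      2 * (8 * Real.pi * C0 * δ) ^ 2 * ‖(hat l j : ℂ) * ψ (a + j)‖ ^ 2 := by
    intro j hj
    rw [Finset.mem_Icc] at hj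
    have hφv : φ (a + j) = ψ (a + (j - 1)) + ψ (a + (j + 1)) +
        (2 * 1 * Real.cos (2 * Real.pi * (θ0 + ((a + j : ℤ) : ℝ) * α)) : ℝ) * ψ (a + j)
        - E * ψ (a + j) := by
      have h1 : φ (a + j) = (amoOp 1 α θ0 ψ : ℤ → ℂ) (a + j) - E * ψ (a + j) := rfl
      rw [h1, amoOp_apply]
      rw [show a + j - 1 = a + (j - 1) by ring, show a + j + 1 = a + (j + 1) by ring]
    set vv : ℝ := 2 * 1 * Real.cos (2 * Real.pi * (θ0 + ((a + j : ℤ) : ℝ) * α)) with hvv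
    have hid : G (j - 1) + G (j + 1) + ((v' j : ℂ) - E) * G j =
        ((hat l j : ℂ) * φ (a + j)
        + ((hat l (j - 1) - hat l j : ℝ) : ℂ) * ψ (a + (j - 1))
        + ((hat l (j + 1) - hat l j : ℝ) : ℂ) * ψ (a + (j + 1))) +
        ((v' j - vv : ℝ) : ℂ) * ((hat l j : ℂ) * ψ (a + j)) := by
      rw [hφv, hG]
      push_cast
      ring
    have hvd : |v' j - vv| ≤ 8 * Real.pi * C0 * δ := by
      rw [hv', hvv]
      simp only
      have h1 : (2 * Real.cos (2 * Real.pi * (θ + ((j + (l + 1) : ℤ) : ℝ) * (p / q))) -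
          2 * 1 * Real.cos (2 * Real.pi * (θ0 + ((a + j : ℤ) : ℝ) * α))) =
          2 * (Real.cos (2 * Real.pi * (θ + ((j + (l + 1) : ℤ) : ℝ) * (p / q))) -
          Real.cos (2 * Real.pi * (θ0 + ((a + j : ℤ) : ℝ) * α))) := by ring
      rw [h1, abs_mul, abs_two]
      have h2 := Real.abs_cos_sub_cos_le (2 * Real.pi * (θ + ((j + (l + 1) : ℤ) : ℝ) * (p / q)))
        (2 * Real.pi * (θ0 + ((a + j : ℤ) : ℝ) * α))
      have h3 : 2 * Real.pi * (θ + ((j + (l + 1) : ℤ) : ℝ) * (p / q)) -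
        2 * Real.pi * (θ0 + ((a + j : ℤ) : ℝ) * α) = -(2 * Real.pi * j * (α - p / q)) := by
        rw [hθ]
        push_cast
        ring
      rw [h3, abs_neg, abs_mul, abs_mul, abs_of_pos (by positivity : 0 < 2 * Real.pi)] at h2
      have h4 : |(j : ℝ)| ≤ l := by
        rw [abs_le]
        constructor
        · exact_mod_cast hj.1
        · exact_mod_cast hj.2
      have h5 : |(j : ℝ)| * |α - p / q| ≤ 2 * C0 * δ := by
        have hq0 : (0 : ℝ) < q := by linarith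
        calc |(j : ℝ)| * |α - p / q| ≤ (2 * (q : ℝ) ^ (3 / 2 : ℝ)) * (C0 / q ^ 3) := by
              gcongr
              exact h4.trans hl3
          _ = 2 * C0 * δ := by
              have : (q : ℝ) ^ 3 = (q : ℝ) ^ (3 / 2 : ℝ) * (q : ℝ) ^ (3 / 2 : ℝ) := by
                rw [← Real.rpow_add hq0]
                norm_num
              rw [this]
              have h6 : δ = 1 / (q : ℝ) ^ (3 / 2 : ℝ) := by
                rw [eq_div_iff (by positivity)]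
                exact hδq
              rw [h6]
              field_simp
      have h7 := Real.pi_pos
      nlinarith
    rw [hid]
    have h8 : ∀ x y : ℂ, ‖x + y‖ ^ 2 ≤ 2 * ‖x‖ ^ 2 + 2 * ‖y‖ ^ 2 := by
      intro x y
      have h4 : ‖x + y‖ ≤ ‖x‖ + ‖y‖ := norm_add_le _ _
      have h5 : ‖x + y‖ ^ 2 ≤ (‖x‖ + ‖y‖) ^ 2 := by gcongr
      nlinarith [sq_nonneg (‖x‖ - ‖y‖)]
    refine (h8 _ _).trans ?_
    have h9 : ‖((v' j - vv : ℝ) : ℂ) * ((hat l j : ℂ) * ψ (a + j))‖ ^ 2 ≤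
        (8 * Real.pi * C0 * δ) ^ 2 * ‖(hat l j : ℂ) * ψ (a + j)‖ ^ 2 := by
      rw [norm_mul, mul_pow, Complex.norm_real, Real.norm_eq_abs]
      gcongr
    linarith
  have hfin : ‖Tv V g - (E : ℂ) • g‖ ≤ 60 * C0 * δ * ‖g‖ := by
    have h1 : ‖Tv V g - (E : ℂ) • g‖ ^ 2 ≤ (60 * C0 * δ * ‖g‖) ^ 2 := by
      rw [hres, mul_pow, hgn]
      refine (Finset.sum_le_sum hterm).trans ?_
      rw [Finset.sum_add_distrib, ← Finset.mul_sum, ← Finset.mul_sum, ← hA]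
      have h2 : 2 * ((3 * δ ^ 2 + 96 / (l : ℝ) ^ 2) * A) ≤ 2 * (99 * δ ^ 2 * A) := by
        gcongr
      have hpi : Real.pi ^ 2 ≤ 10 := by
        have h3 := Real.pi_lt_d2
        have h4 := Real.pi_pos
        nlinarith
      have hC2 : 1 ≤ C0 ^ 2 := by nlinarith
      have h5 : 2 * (8 * Real.pi * C0 * δ) ^ 2 ≤ 1280 * C0 ^ 2 * δ ^ 2 := by
        have : 2 * (8 * Real.pi * C0 * δ) ^ 2 = 128 * Real.pi ^ 2 * (C0 ^ 2 * δ ^ 2) := by ring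
        rw [this]
        have : 128 * Real.pi ^ 2 * (C0 ^ 2 * δ ^ 2) ≤ 128 * 10 * (C0 ^ 2 * δ ^ 2) := by gcongr
        linarith
      have h6 : 2 * (8 * Real.pi * C0 * δ) ^ 2 * A ≤ 1280 * C0 ^ 2 * δ ^ 2 * A := by gcongr
      have h7 : 198 * δ ^ 2 * A ≤ 198 * C0 ^ 2 * δ ^ 2 * A := by
        have : 198 * δ ^ 2 * A * 1 ≤ 198 * δ ^ 2 * A * C0 ^ 2 := by gcongr
        linarith
      have h8 : 0 ≤ C0 ^ 2 * δ ^ 2 * A := by positivity
      have h9 : (60 * C0 * δ) ^ 2 * A = 3600 * (C0 ^ 2 * δ ^ 2 * A) := by ring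
      rw [h9]
      linarith
    exact (sq_le_sq₀ (norm_nonneg _) (by positivity)).mp h1
  obtain ⟨E', f, hf0, hfe, hd⟩ := exists_eig V E (60 * C0 * δ) (by positivity) g hg0 hfin
  refine ⟨M, hMne, θ, E', fun n => f n, ?_, ?_, hd⟩
  · intro h
    apply hf0
    ext n
    exact congrFun h n
  · intro n
    have h1 : (Tv V f) n = ((E' : ℂ) • f) n := by rw [hfe]
    exact h1

end Pool.Agent.H73.AM
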